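import Mathlib
import Pool.Agent.Helper49.DW.Free

/-!
Nonabelian subgroups of the free group of rank two.
-/

set_option autoImplicit false

namespace Pool.Agent.Helper25.WC

open FreeGroup
open Pool.Agent.Helper49.DW (ct maln zpow_ne)

/-- nonabelian subgroups -/
def NA (K : Subgroup (FreeGroup (Fin 2))) : Prop := ∃ a ∈ K, ∃ b ∈ K, ¬ Commute a b

theorem na_ne {a b : FreeGroup (Fin 2)} (h : ¬ Commute a b) : a ≠ 1 ∧ b ≠ 1 :=
  ⟨fun e => h (e ▸ Commute.one_left b), fun e => h (e ▸ Commute.one_right a)⟩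

theorem na_top : NA ⊤ := by
  refine ⟨of 0, trivial, of 1, trivial, fun h => ?_⟩
  have := Pool.Agent.Helper49.DW.of_comm h
  exact absurd this (by decide)

/-- a power of an element which commutes with something -/
theorem comm_of_pow {a b : FreeGroup (Fin 2)} {n : ℕ} (hn : n ≠ 0) (h : Commute (a ^ n) b) :
    Commute a b := by
  by_cases ha : a = 1
  · subst ha; exact Commute.one_left b
  have h1 : a ^ n ≠ 1 := by
    intro e
    have := zpow_ne ha (k := (n : ℤ)) (by simpa using e)
    exact hn (by exact_mod_cast this)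
  exact ct h1 ((Commute.refl a).pow_right n) h

/-- subgroups which contain powers of all elements -/
theorem NA.of_pow {K K' : Subgroup (FreeGroup (Fin 2))} (hK : NA K)
    (h : ∀ k ∈ K, ∃ n : ℕ, n ≠ 0 ∧ k ^ n ∈ K') : NA K' := by
  obtain ⟨a, ha, b, hb, hab⟩ := hK
  obtain ⟨n, hn, hna⟩ := h a ha
  obtain ⟨m, hm, hmb⟩ := h b hb
  refine ⟨a ^ n, hna, b ^ m, hmb, fun hc => hab ?_⟩
  exact (comm_of_pow hm (comm_of_pow hn hc).symm).symm

/-- something in a nonabelian subgroup does not commute with a given element -/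
theorem NA.exists_not {K : Subgroup (FreeGroup (Fin 2))} (hK : NA K) {c : FreeGroup (Fin 2)}
    (hc : c ≠ 1) : ∃ d ∈ K, ¬ Commute c d := by
  obtain ⟨a, ha, b, hb, hab⟩ := hK
  by_contra h
  push Not at h
  exact hab (ct hc (h a ha).symm (h b hb))

/-- normal subgroups -/
theorem NA.normal {K K' : Subgroup (FreeGroup (Fin 2))} (hK : NA K) {c : FreeGroup (Fin 2)}
    (hc : c ≠ 1) (hcK : c ∈ K') (h : ∀ d ∈ K, d * c * d⁻¹ ∈ K') : NA K' := by
  obtain ⟨d, hd, hcd⟩ := hK.exists_not hc
  exact ⟨c, hcK, d * c * d⁻¹, h d hd, fun e => hcd (maln hc e)⟩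

/-- a nonabelian subgroup contains a free group of rank two -/
theorem NA.embed {K : Subgroup (FreeGroup (Fin 2))} (hK : NA K) :
    ∃ f : FreeGroup (Fin 2) →* FreeGroup (Fin 2), Function.Injective f ∧ ∀ w, f w ∈ K := by
  obtain ⟨a, ha, b, hb, hab⟩ := hK
  let e := IsFreeGroup.toFreeGroup K
  have h2 : ∃ i j : IsFreeGroup.Generators K, i ≠ j := by
    by_contra h
    push Not at h
    have hsub : Subsingleton (IsFreeGroup.Generators K) := ⟨h⟩
    apply hab
    have h3 : ∀ x y : FreeGroup (IsFreeGroup.Generators K), Commute x y := by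
      intro x y
      rcases isEmpty_or_nonempty (IsFreeGroup.Generators K) with hE | ⟨⟨i⟩⟩
      · have : x = 1 := Subsingleton.elim _ _
        rw [this]; exact Commute.one_left y
      · have hz : ∀ x : FreeGroup (IsFreeGroup.Generators K), x ∈ Subgroup.zpowers (of i) := by
          intro x
          induction x using FreeGroup.induction_on with
          | C1 => exact Subgroup.one_mem _
          | of j => rw [h j i]; exact Subgroup.mem_zpowers _
          | inv_of j h => exact Subgroup.inv_mem _ h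
          | mul x y hx hy => exact Subgroup.mul_mem _ hx hy
        exact Pool.Agent.Helper49.DW.commute_of_zpowers (hz x) (hz y)
    have h4 := h3 (e ⟨a, ha⟩) (e ⟨b, hb⟩)
    have h5 : (⟨a, ha⟩ : K) * ⟨b, hb⟩ = ⟨b, hb⟩ * ⟨a, ha⟩ := by
      apply e.injective
      rw [_root_.map_mul, _root_.map_mul]
      exact h4.eq
    exact congrArg Subtype.val h5
  obtain ⟨i, j, hij⟩ := h2
  have hinj : Function.Injective (![i, j] : Fin 2 → IsFreeGroup.Generators K) := by
    intro x y hxy
    fin_cases x <;> fin_cases y <;> simp_all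
  refine ⟨K.subtype.comp (e.symm.toMonoidHom.comp (FreeGroup.map ![i, j])), ?_, fun w => ?_⟩
  · exact K.subtype_injective.comp (e.symm.injective.comp (FreeGroup.map_injective hinj))
  · exact (e.symm (FreeGroup.map ![i, j] w)).2

end Pool.Agent.Helper25.WC
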