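import Mathlib
import Pool.Agent.Helper34.FG.Paradox

/-!
A summable positive definite function on the free group of rank two is far from invariant.
-/

set_option autoImplicit false

namespace Pool.Agent.Helper25.WC

open FreeGroup

noncomputable section

abbrev FF := FreeGroup (Fin 2)
abbrev A := FF →₀ ℝ

/-- left translation -/
def Lt (g : FF) : A →ₗ[ℝ] A := Finsupp.lmapDomain ℝ ℝ (fun h => g * h)

theorem Lt_single (g h : FF) (x : ℝ) : Lt g (Finsupp.single h x) = Finsupp.single (g * h) x := by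
  simp [Lt, Finsupp.mapDomain_single]

theorem Lt_apply (g : FF) (a : A) (s : FF) : Lt g a s = a (g⁻¹ * s) := by
  induction a using Finsupp.induction_linear with
  | zero => simp
  | add f h hf hh => simp [hf, hh]
  | single k x =>
    rw [Lt_single]
    by_cases h : g * k = s
    · subst h; simp
    · rw [Finsupp.single_eq_of_ne (fun e => h e.symm), Finsupp.single_eq_of_ne]
      intro e; apply h; rw [← e]; group

/-- the form of a function `φ` -/
def Bf (φ : FF → ℝ) : A →ₗ[ℝ] A →ₗ[ℝ] ℝ :=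
  Finsupp.linearCombination ℝ (fun k => Finsupp.linearCombination ℝ (fun l => φ (k⁻¹ * l)))

theorem Bf_single (φ : FF → ℝ) (k l : FF) (x y : ℝ) :
    Bf φ (Finsupp.single k x) (Finsupp.single l y) = x * y * φ (k⁻¹ * l) := by
  simp [Bf, mul_assoc]

theorem Bf_ext {B B' : A →ₗ[ℝ] A →ₗ[ℝ] ℝ}
    (h : ∀ k l, B (Finsupp.single k 1) (Finsupp.single l 1) =
      B' (Finsupp.single k 1) (Finsupp.single l 1)) : B = B' := by
  apply Finsupp.lhom_ext'
  intro k
  apply LinearMap.ext_ring
  apply Finsupp.lhom_ext'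
  intro l
  apply LinearMap.ext_ring
  exact h k l

theorem Bf_Lt (φ : FF → ℝ) (g : FF) (a b : A) : Bf φ (Lt g a) b = Bf φ a (Lt g⁻¹ b) := by
  have h : (Bf φ).comp (Lt g) = ((Bf φ).compl₂ (Lt g⁻¹)) := by
    apply Bf_ext
    intro k l
    simp only [LinearMap.comp_apply, LinearMap.compl₂_apply, Lt_single, Bf_single]
    congr 2
    group
  have := congrArg (fun B : A →ₗ[ℝ] A →ₗ[ℝ] ℝ => B a b) h
  simpa using this

theorem Bf_symm (φ : FF → ℝ) (hs : ∀ g, φ g⁻¹ = φ g) (a b : A) : Bf φ a b = Bf φ b a := by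
  have h : Bf φ = (Bf φ).flip := by
    apply Bf_ext
    intro k l
    simp only [LinearMap.flip_apply, Bf_single]
    rw [← hs (k⁻¹ * l)]
    congr 2
    group
  exact congrArg (fun B : A →ₗ[ℝ] A →ₗ[ℝ] ℝ => B a b) h

/-- the operator -/
def T : A →ₗ[ℝ] A := ∑ i : Fin 2, (Lt (of i) + Lt (of i)⁻¹)

theorem Bf_T (φ : FF → ℝ) (a b : A) : Bf φ (T a) b = Bf φ a (T b) := by
  simp only [T, LinearMap.sum_apply, LinearMap.add_apply, map_sum, map_add]
  refine Finset.sum_congr rfl fun i _ => ?_
  rw [Bf_Lt, Bf_Lt, inv_inv, add_comm]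

/-- the delta function -/
def dt (g : FF) : ℝ := if g = 1 then 1 else 0

theorem dt_inv (g : FF) : dt g⁻¹ = dt g := by simp [dt]

theorem Bf_dt (a b : A) : Bf dt a b = ∑' s, a s * b s := by
  have hb : ∀ (a : A) (b : FF → ℝ), Summable fun s => a s * b s := by
    intro a b
    apply summable_of_hasFiniteSupport
    refine a.finite_support.subset ?_
    intro s hs
    simp only [Function.mem_support] at hs ⊢
    intro h; apply hs; rw [h, zero_mul]
  induction a using Finsupp.induction_linear with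
  | zero => simp
  | add f h hf hh =>
    rw [map_add, LinearMap.add_apply, hf, hh, ← (hb f b).tsum_add (hb h b)]
    refine tsum_congr fun s => ?_
    simp [add_mul]
  | single k x =>
    rw [tsum_eq_single k]
    · induction b using Finsupp.induction_linear with
      | zero => simp
      | add f h hf hh => rw [map_add, hf, hh]; simp [mul_add]
      | single l y =>
        rw [Bf_single]
        by_cases h : k = l
        · subst h; simp [dt]
        · have : k⁻¹ * l ≠ 1 := fun e => h (inv_mul_eq_one.1 e)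
          simp [dt, this, Finsupp.single_eq_of_ne h]
    · intro s hs
      rw [Finsupp.single_eq_of_ne hs, zero_mul]

theorem N_nonneg (a : A) : 0 ≤ Bf dt a a := by
  rw [Bf_dt]
  exact tsum_nonneg fun s => mul_self_nonneg _

theorem N_pos {a : A} (ha : a ≠ 0) : 0 < Bf dt a a := by
  obtain ⟨s, hs⟩ : ∃ s, a s ≠ 0 := by
    by_contra h
    push Not at h
    exact ha (Finsupp.ext h)
  rw [Bf_dt]
  have hsum : Summable fun s => a s * a s := by
    apply summable_of_hasFiniteSupport
    refine a.finite_support.subset ?_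
    intro s hs
    simp only [Function.mem_support] at hs ⊢
    intro h; apply hs; rw [h, zero_mul]
  exact hsum.tsum_pos (fun s => mul_self_nonneg _) s (mul_self_pos.2 hs)

theorem apply_sq_le (a : A) (s : FF) : a s ^ 2 ≤ Bf dt a a := by
  rw [Bf_dt]
  have hsum : Summable fun s => a s * a s := by
    apply summable_of_hasFiniteSupport
    refine a.finite_support.subset ?_
    intro s hs
    simp only [Function.mem_support] at hs ⊢
    intro h; apply hs; rw [h, zero_mul]
  have := hsum.le_tsum s (fun j _ => mul_self_nonneg _)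
  nlinarith [this]

theorem Q_le (a : A) : |Bf dt (T a) a| ≤ 31 / 8 * Bf dt a a := by
  by_cases ha : a = 0
  · subst ha; simp
  set n := Bf dt a a with hn
  have hn0 : 0 < n := N_pos ha
  have hsq : Real.sqrt n * Real.sqrt n = n := Real.mul_self_sqrt hn0.le
  have hsq0 : 0 < Real.sqrt n := Real.sqrt_pos.2 hn0
  set f : FF → ℝ := fun s => |a s| / Real.sqrt n with hf
  have hfin : f.support.Finite := by
    refine a.finite_support.subset ?_
    intro s hs
    simp only [Function.mem_support, hf] at hs ⊢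
    intro h; apply hs; rw [h]; simp
  have hf1 : ∑' s, f s * f s = 1 := by
    have e : ∀ s, f s * f s = (a s * a s) / n := by
      intro s
      simp only [hf]
      rw [div_mul_div_comm, hsq, abs_mul_abs_self]
    simp only [e]
    rw [tsum_div_const, ← Bf_dt, ← hn, div_self hn0.ne']
  have hfree : ∀ (g s : FF), g • s = s → g = 1 := by
    intro g s h
    simpa using h
  have key := Pool.Agent.Helper34.FG.no_almost_invariant hfree f hfin hf1
  have h1 : Bf dt (T a) a = ∑ i : Fin 2, 2 * ∑' s, a ((of i)⁻¹ * s) * a s := by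
    simp only [T, LinearMap.sum_apply, LinearMap.add_apply, map_sum, map_add]
    refine Finset.sum_congr rfl fun i _ => ?_
    rw [Bf_Lt dt (of i)⁻¹, inv_inv, Bf_symm dt dt_inv a, Bf_dt]
    simp only [Lt_apply]
    ring
  have h2 : ∀ i : Fin 2, |∑' s, a ((of i)⁻¹ * s) * a s| ≤
      n * ∑' s, f ((of i)⁻¹ • s) * f s := by
    intro i
    have hsum : Summable fun s => |a ((of i)⁻¹ * s) * a s| := by
      apply summable_of_hasFiniteSupport
      refine a.finite_support.subset ?_
      intro s hs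
      simp only [Function.mem_support] at hs ⊢
      intro h; apply hs; rw [h]; simp
    have h3 : |∑' s, a ((of i)⁻¹ * s) * a s| ≤ ∑' s, |a ((of i)⁻¹ * s) * a s| := by
      have := norm_tsum_le_tsum_norm (f := fun s => a ((of i)⁻¹ * s) * a s)
        (by simpa only [Real.norm_eq_abs] using hsum)
      simpa only [Real.norm_eq_abs] using this
    refine h3.trans (le_of_eq ?_)
    rw [← tsum_mul_left]
    refine tsum_congr fun s => ?_
    simp only [hf, smul_eq_mul]
    rw [abs_mul, div_mul_div_comm, hsq]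
    field_simp
  rw [h1]
  simp only [Fin.sum_univ_two] at key ⊢
  have h20 := h2 0
  have h21 := h2 1
  have h5 : n * ∑' s, f ((of (0 : Fin 2))⁻¹ • s) * f s + n * ∑' s, f ((of (1 : Fin 2))⁻¹ • s) * f s
      ≤ n * (31 / 16) := by
    rw [← mul_add]
    apply mul_le_mul_of_nonneg_left _ hn0.le
    linarith
  calc |2 * ∑' s, a ((of 0)⁻¹ * s) * a s + 2 * ∑' s, a ((of 1)⁻¹ * s) * a s|
      ≤ |2 * ∑' s, a ((of 0)⁻¹ * s) * a s| + |2 * ∑' s, a ((of 1)⁻¹ * s) * a s| := abs_add_le _ _
    _ = 2 * |∑' s, a ((of 0)⁻¹ * s) * a s| + 2 * |∑' s, a ((of 1)⁻¹ * s) * a s| := by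
        rw [abs_mul, abs_mul, abs_two]
    _ ≤ 31 / 8 * n := by linarith

theorem N_T (a : A) : Bf dt (T a) (T a) ≤ (31 / 8) ^ 2 * Bf dt a a := by
  set b : A := (8 / 31 : ℝ) • T a with hb
  have h1 := (abs_le.1 (Q_le (a + b))).2
  have h2 := (abs_le.1 (Q_le (a - b))).1
  have e1 : Bf dt (T (a + b)) (a + b) - Bf dt (T (a - b)) (a - b) = 4 * Bf dt (T a) b := by
    have : Bf dt (T b) a = Bf dt (T a) b := by
      rw [Bf_T, Bf_symm dt dt_inv]
    simp only [map_add, map_sub, LinearMap.add_apply, LinearMap.sub_apply]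
    linarith
  have e2 : Bf dt (a + b) (a + b) + Bf dt (a - b) (a - b) = 2 * (Bf dt a a + Bf dt b b) := by
    simp only [map_add, map_sub, LinearMap.add_apply, LinearMap.sub_apply]
    ring
  have e3 : Bf dt (T a) b = 8 / 31 * Bf dt (T a) (T a) := by
    rw [hb, map_smul, smul_eq_mul]
  have e4 : Bf dt b b = (8 / 31) ^ 2 * Bf dt (T a) (T a) := by
    rw [hb, map_smul, LinearMap.map_smul₂, smul_eq_mul, smul_eq_mul]
    ring
  nlinarith [e1, e2, e3, e4, h1, h2]

theorem N_T_pow (a : A) (n : ℕ) : Bf dt ((T ^ n) a) ((T ^ n) a) ≤ ((31 / 8) ^ n) ^ 2 * Bf dt a a := by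
  induction n with
  | zero => simp
  | succ n ih =>
    have h := N_T ((T ^ n) a)
    have e : (T ^ (n + 1)) a = T ((T ^ n) a) := by
      rw [pow_succ', Module.End.mul_apply]
    rw [e]
    refine h.trans ?_
    calc (31 / 8 : ℝ) ^ 2 * Bf dt ((T ^ n) a) ((T ^ n) a)
        ≤ (31 / 8 : ℝ) ^ 2 * (((31 / 8) ^ n) ^ 2 * Bf dt a a) := by gcongr
      _ = _ := by ring

/-- **Kesten.** -/
theorem kesten (φ : FF → ℝ) (h0 : ∀ g, 0 ≤ φ g) (hs : ∀ g, φ g⁻¹ = φ g)
    (hpd : ∀ a, 0 ≤ Bf φ a a) (C : ℝ) (hC : ∀ F : Finset FF, ∑ g ∈ F, φ g ≤ C) :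
    φ (of 0) + φ (of 1) ≤ 31 / 16 * φ 1 := by
  set e1 : A := Finsupp.single 1 1 with he1
  set t : ℕ → ℝ := fun n => Bf φ e1 ((T ^ n) e1) with ht
  have t0 : t 0 = φ 1 := by
    simp only [ht, pow_zero, Module.End.one_apply, he1, Bf_single]
    simp
  have t1 : t 1 = 2 * (φ (of 0) + φ (of 1)) := by
    simp only [ht, pow_one, he1, T, LinearMap.sum_apply, LinearMap.add_apply, map_sum, map_add,
      Lt_single, Bf_single, Fin.sum_univ_two]
    simp only [mul_one, one_mul, inv_one, hs]
    ring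
  have hmove : ∀ n m (a b : A), Bf φ ((T ^ n) a) ((T ^ m) b) = Bf φ a ((T ^ (n + m)) b) := by
    intro n
    induction n with
    | zero => intro m a b; simp
    | succ n ih =>
      intro m a b
      have e : (T ^ (n + 1)) a = (T ^ n) (T a) := by
        rw [pow_succ, Module.End.mul_apply]
      rw [e, ih, Bf_T]
      have e' : T ((T ^ (n + m)) b) = (T ^ (n + 1 + m)) b := by
        rw [show n + 1 + m = (n + m) + 1 by ring, pow_succ', Module.End.mul_apply]
      rw [e']
  have hcs : ∀ n, t n ^ 2 ≤ t 0 * t (2 * n) := by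
    intro n
    have h := LinearMap.BilinForm.apply_mul_apply_le_of_forall_zero_le (Bf φ) hpd e1 ((T ^ n) e1)
    rw [Bf_symm φ hs ((T ^ n) e1) e1, hmove n n e1 e1] at h
    have e : t 0 = Bf φ e1 e1 := by simp [ht]
    rw [e, sq, two_mul]
    exact h
  have hup : ∀ n, t n ≤ C * (31 / 8) ^ n := by
    intro n
    set v := (T ^ n) e1 with hv
    have hN : ∀ s, v s ≤ (31 / 8) ^ n := by
      intro s
      have h2 := (apply_sq_le v s).trans (N_T_pow e1 n)
      have h3 : Bf dt e1 e1 = 1 := by
        rw [he1, Bf_single]; simp [dt]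
      rw [h3, mul_one] at h2
      exact (abs_le.1 (abs_le_of_sq_le_sq h2 (by positivity))).2
    have h4 : t n = ∑ s ∈ v.support, v s * φ s := by
      show Bf φ e1 v = _
      have : Bf φ e1 v = v.sum fun l y => y * φ l := by
        rw [he1]
        simp only [Bf, Finsupp.linearCombination_single, one_smul, inv_one, one_mul]
        rw [Finsupp.linearCombination_apply]
        simp only [smul_eq_mul]
      rw [this]
      rfl
    rw [h4]
    calc ∑ s ∈ v.support, v s * φ s ≤ ∑ s ∈ v.support, (31 / 8) ^ n * φ s :=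
          Finset.sum_le_sum fun s _ => mul_le_mul_of_nonneg_right (hN s) (h0 s)
      _ = (31 / 8) ^ n * ∑ s ∈ v.support, φ s := by rw [Finset.mul_sum]
      _ ≤ (31 / 8) ^ n * C := by gcongr; exact hC _
      _ = _ := mul_comm _ _
  by_contra hcon
  push Not at hcon
  have hlt : 31 / 8 * t 0 < t 1 := by rw [t0, t1]; linarith
  have ht0 : 0 < t 0 := by
    rcases (h0 1).eq_or_lt with h | h
    · have h2 := hcs 1
      rw [t0, ← h, zero_mul] at h2
      have h3 : t 1 = 0 := by nlinarith [sq_nonneg (t 1)]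
      rw [h3, t0, ← h] at hlt
      simp at hlt
    · rw [t0]; exact h
  set r := t 1 / (31 / 8 * t 0) with hr
  have hr1 : 1 < r := by
    rw [hr, one_lt_div (by positivity)]
    exact hlt
  have hlow : ∀ j : ℕ, (r * (31 / 8)) ^ (2 ^ j) * t 0 ≤ t (2 ^ j) := by
    intro j
    induction j with
    | zero =>
      rw [pow_zero, pow_one]
      apply le_of_eq
      rw [hr]
      field_simp
    | succ j ih =>
      have h2 := hcs (2 ^ j)
      have e : 2 * 2 ^ j = 2 ^ (j + 1) := by ring
      rw [e] at h2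
      have h3 : 0 ≤ (r * (31 / 8)) ^ (2 ^ j) * t 0 := by positivity
      have h4 : ((r * (31 / 8)) ^ (2 ^ j) * t 0) ^ 2 ≤ t 0 * t (2 ^ (j + 1)) :=
        (pow_le_pow_left₀ h3 ih 2).trans h2
      have h5 : ((r * (31 / 8)) ^ (2 ^ j) * t 0) ^ 2 =
          t 0 * ((r * (31 / 8)) ^ (2 ^ (j + 1)) * t 0) := by
        rw [pow_succ 2 j, pow_mul]
        ring
      rw [h5] at h4
      exact le_of_mul_le_mul_left h4 ht0
  have hb : ∀ j : ℕ, r ^ (2 ^ j) ≤ C / t 0 := by
    intro j
    have h2 := (hlow j).trans (hup (2 ^ j))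
    rw [mul_pow] at h2
    rw [le_div_iff₀ ht0]
    have h3 : (0 : ℝ) < (31 / 8) ^ (2 ^ j) := by positivity
    nlinarith [h2, h3]
  obtain ⟨m, hm⟩ := pow_unbounded_of_one_lt (C / t 0) hr1
  have h6 := hb m
  have h7 : r ^ m ≤ r ^ (2 ^ m) := pow_le_pow_right₀ hr1.le Nat.lt_two_pow_self.le
  linarith

end

end Pool.Agent.Helper25.WC
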