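import Mathlib
import Pool.Agent.Helper49.DW.LGStar

/-!
Limits in the weak operator topology, and the closure of the image of a subset of the free group.
-/

set_option autoImplicit false

namespace Pool.Agent.Helper25.WC

open scoped InnerProductSpace ComplexConjugate
open Filter Topology
open Pool.Agent.Helper9.UGap
open Pool.Agent.Helper49.DW.Op (U_inv_app U_app_inv)

noncomputable section

variable {E : Type*} [NormedAddCommGroup E] [InnerProductSpace ℂ E] [CompleteSpace E]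

/-- matrix coefficients -/
def mc (T : E →L[ℂ] E) : E → E → ℂ := fun x y => ⟪x, T y⟫_ℂ

/-- convergence in the weak operator topology -/
def WT {ι : Type*} (f : ι → E →L[ℂ] E) (l : Filter ι) (T : E →L[ℂ] E) : Prop :=
  ∀ x y, Tendsto (fun i => ⟪x, f i y⟫_ℂ) l (𝓝 ⟪x, T y⟫_ℂ)

omit [CompleteSpace E] in
theorem WT.iff {ι : Type*} {f : ι → E →L[ℂ] E} {l : Filter ι} {T : E →L[ℂ] E} :
    WT f l T ↔ Tendsto (fun i => mc (f i)) l (𝓝 (mc T)) := by
  rw [tendsto_pi_nhds]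
  simp only [tendsto_pi_nhds]
  rfl

omit [CompleteSpace E] in
theorem op_ext {S T : E →L[ℂ] E} (h : ∀ x y, ⟪x, S y⟫_ℂ = ⟪x, T y⟫_ℂ) : S = T := by
  ext y
  exact ext_inner_left ℂ fun x => h x y

omit [CompleteSpace E] in
theorem WT.unique {ι : Type*} {f : ι → E →L[ℂ] E} {l : Filter ι} [l.NeBot] {S T : E →L[ℂ] E}
    (hS : WT f l S) (hT : WT f l T) : S = T :=
  op_ext fun x y => tendsto_nhds_unique (hS x y) (hT x y)

/-- bounded families have limits along ultrafilters -/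
theorem exists_lim {ι : Type*} (f : ι → E →L[ℂ] E) (hf : ∀ i x, ‖f i x‖ ≤ ‖x‖)
    (u : Ultrafilter ι) : ∃ T : E →L[ℂ] E, WT f u T := by
  have h1 : ∀ x y : E, ∃ b : ℂ, Tendsto (fun i => ⟪x, f i y⟫_ℂ) u (𝓝 b) ∧ ‖b‖ ≤ ‖x‖ * ‖y‖ := by
    intro x y
    have hmem : ∀ i, ⟪x, f i y⟫_ℂ ∈ Metric.closedBall (0 : ℂ) (‖x‖ * ‖y‖) := by
      intro i
      rw [mem_closedBall_zero_iff]
      exact (norm_inner_le_norm _ _).trans (mul_le_mul_of_nonneg_left (hf i y) (norm_nonneg _))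
    obtain ⟨b, hb, hb2⟩ := (isCompact_closedBall (0 : ℂ) (‖x‖ * ‖y‖)).ultrafilter_le_nhds
      (u.map fun i => ⟪x, f i y⟫_ℂ) (by
        rw [le_principal_iff]
        exact Filter.Eventually.of_forall (f := (u : Filter ι)) hmem)
    exact ⟨b, hb2, mem_closedBall_zero_iff.1 hb⟩
  choose b hb hbn using h1
  let B : E →ₗ⋆[ℂ] E →ₗ[ℂ] ℂ := LinearMap.mk₂'ₛₗ (starRingEnd ℂ) (RingHom.id ℂ) b
    (fun x x' y => tendsto_nhds_unique (hb (x + x') y) (by
      have := (hb x y).add (hb x' y)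
      refine this.congr fun i => ?_
      rw [inner_add_left]))
    (fun c x y => tendsto_nhds_unique (hb (c • x) y) (by
      have := (hb x y).const_mul (conj c)
      refine this.congr fun i => ?_
      rw [inner_smul_left]))
    (fun x y y' => tendsto_nhds_unique (hb x (y + y')) (by
      have := (hb x y).add (hb x y')
      refine this.congr fun i => ?_
      rw [map_add, inner_add_right]))
    (fun c x y => tendsto_nhds_unique (hb x (c • y)) (by
      have := (hb x y).const_mul c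
      refine this.congr fun i => ?_
      rw [map_smul, inner_smul_right]))
  let B' : E →L⋆[ℂ] E →L[ℂ] ℂ := LinearMap.mkContinuous₂ B 1 (fun x y => by
    rw [one_mul]; exact hbn x y)
  refine ⟨star (InnerProductSpace.continuousLinearMapOfBilin B'), fun x y => ?_⟩
  rw [inner_star', star_star, InnerProductSpace.continuousLinearMapOfBilin_apply]
  exact hb x y

variable (φ : FreeGroup (Fin 2) →* unitary (E →L[ℂ] E))

/-- the closure of the operators of the words in `K` for the weak operator topology -/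
def Cl (K : Set (FreeGroup (Fin 2))) (T : E →L[ℂ] E) : Prop :=
  mc T ∈ closure ((fun k => mc (U φ k)) '' K)

variable {φ}

theorem Cl.mono {K K' : Set (FreeGroup (Fin 2))} (h : K ⊆ K') {T : E →L[ℂ] E} (hT : Cl φ K T) :
    Cl φ K' T := closure_mono (Set.image_mono h) hT

theorem Cl.of {K : Set (FreeGroup (Fin 2))} {k : FreeGroup (Fin 2)} (hk : k ∈ K) :
    Cl φ K (U φ k) := subset_closure ⟨k, hk, rfl⟩

theorem Cl.ultra {K : Set (FreeGroup (Fin 2))} {T : E →L[ℂ] E} (hT : Cl φ K T) :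
    ∃ u : Ultrafilter (FreeGroup (Fin 2)), K ∈ u ∧ WT (U φ) u T := by
  have h1 : (𝓝 (mc T) ⊓ 𝓟 ((fun k => mc (U φ k)) '' K)).NeBot := mem_closure_iff_clusterPt.1 hT
  have h2 : (comap (fun k => mc (U φ k)) (𝓝 (mc T)) ⊓ 𝓟 K).NeBot := by
    rw [← map_principal, ← Filter.push_pull'] at h1
    exact NeBot.of_map h1
  refine ⟨Ultrafilter.of (comap (fun k => mc (U φ k)) (𝓝 (mc T)) ⊓ 𝓟 K), ?_, ?_⟩
  · have := Ultrafilter.of_le (comap (fun k => mc (U φ k)) (𝓝 (mc T)) ⊓ 𝓟 K)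
    exact this (mem_inf_of_right (mem_principal_self K))
  · rw [WT.iff]
    have := Ultrafilter.of_le (comap (fun k => mc (U φ k)) (𝓝 (mc T)) ⊓ 𝓟 K)
    exact tendsto_iff_comap.2 (this.trans inf_le_left)

theorem Cl.of_tendsto {ι : Type*} {l : Filter ι} [l.NeBot] {K : Set (FreeGroup (Fin 2))}
    {k : ι → FreeGroup (Fin 2)} (hk : ∀ᶠ i in l, k i ∈ K) {T : E →L[ℂ] E}
    (h : WT (fun i => U φ (k i)) l T) : Cl φ K T :=
  mem_closure_of_tendsto (WT.iff.1 h) (hk.mono fun i hi => ⟨k i, hi, rfl⟩)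

theorem Cl.lim {ι : Type*} {l : Filter ι} [l.NeBot] {K : Set (FreeGroup (Fin 2))}
    {f : ι → E →L[ℂ] E} (hf : ∀ i, Cl φ K (f i)) {T : E →L[ℂ] E} (h : WT f l T) : Cl φ K T :=
  isClosed_closure.mem_of_tendsto (WT.iff.1 h) (Eventually.of_forall hf)

theorem Cl.norm_le {K : Set (FreeGroup (Fin 2))} {T : E →L[ℂ] E} (hT : Cl φ K T) (x : E) :
    ‖T x‖ ≤ ‖x‖ := by
  obtain ⟨u, -, h⟩ := hT.ultra
  have h1 : ‖⟪T x, T x⟫_ℂ‖ ≤ ‖T x‖ * ‖x‖ := by
    refine le_of_tendsto (h (T x) x).norm (Eventually.of_forall fun k => ?_)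
    refine (norm_inner_le_norm _ _).trans ?_
    rw [U_norm_apply]
  rw [inner_self_eq_norm_sq_to_K] at h1
  have h2 : ‖T x‖ * ‖T x‖ ≤ ‖T x‖ * ‖x‖ := by
    have e : ‖((‖T x‖ : ℂ)) ^ 2‖ = ‖T x‖ * ‖T x‖ := by
      rw [norm_pow, Complex.norm_real, norm_norm, sq]
    rw [← e]
    exact h1
  rcases (norm_nonneg (T x)).eq_or_lt with h3 | h3
  · rw [← h3]; exact norm_nonneg x
  · exact le_of_mul_le_mul_left h2 h3

theorem Cl.mul_left {K : Subgroup (FreeGroup (Fin 2))} {T : E →L[ℂ] E} (hT : Cl φ K T)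
    {k : FreeGroup (Fin 2)} (hk : k ∈ K) : Cl φ K (U φ k * T) := by
  obtain ⟨u, hu, h⟩ := hT.ultra
  refine Cl.of_tendsto (l := (u : Filter _)) (k := fun g => k * g) ?_ ?_
  · filter_upwards [hu] with g hg using K.mul_mem hk hg
  · intro x y
    have := h (U φ k⁻¹ x) y
    have e : ∀ z : E, ⟪U φ k⁻¹ x, z⟫_ℂ = ⟪x, U φ k z⟫_ℂ := by
      intro z
      rw [inner_star', U_star]
    simp only [e] at this
    simp only [U_mul, mul_app]
    exact this

theorem Cl.mul_right {K : Subgroup (FreeGroup (Fin 2))} {T : E →L[ℂ] E} (hT : Cl φ K T)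
    {k : FreeGroup (Fin 2)} (hk : k ∈ K) : Cl φ K (T * U φ k) := by
  obtain ⟨u, hu, h⟩ := hT.ultra
  refine Cl.of_tendsto (l := (u : Filter _)) (k := fun g => g * k) ?_ ?_
  · filter_upwards [hu] with g hg using K.mul_mem hg hk
  · intro x y
    have := h x (U φ k y)
    simp only [U_mul, mul_app]
    exact this

theorem Cl.cj {K : Subgroup (FreeGroup (Fin 2))} {T : E →L[ℂ] E} (hT : Cl φ K T)
    {k : FreeGroup (Fin 2)} (hk : k ∈ K) : Cl φ K (cj φ k T) :=
  (hT.mul_left hk).mul_right (K.inv_mem hk)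

theorem Cl.adj {K : Subgroup (FreeGroup (Fin 2))} {T : E →L[ℂ] E} (hT : Cl φ K T) :
    Cl φ K (star T) := by
  obtain ⟨u, hu, h⟩ := hT.ultra
  refine Cl.of_tendsto (l := (u : Filter _)) (k := fun g => g⁻¹) ?_ ?_
  · filter_upwards [hu] with g hg using K.inv_mem hg
  · intro x y
    have := (continuous_star.tendsto _).comp (h y x)
    simp only [Function.comp_def] at this
    have e : ∀ S : E →L[ℂ] E, star ⟪y, S x⟫_ℂ = ⟪x, (star S) y⟫_ℂ := by
      intro S
      rw [inner_star']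
      exact inner_conj_symm _ _
    simp only [e, U_star] at this
    exact this

/-- the elements of the closure fix what is fixed by `K` -/
theorem Cl.fix {K : Set (FreeGroup (Fin 2))} {T : E →L[ℂ] E} (hT : Cl φ K T)
    {S : E →L[ℂ] E} (hS : ∀ k ∈ K, U φ k * S = S) : T * S = S := by
  obtain ⟨u, hu, h⟩ := hT.ultra
  refine op_ext fun x y => ?_
  have h1 := h x (S y)
  have h2 : Tendsto (fun k => ⟪x, U φ k (S y)⟫_ℂ) (u : Filter _) (𝓝 ⟪x, S y⟫_ℂ) := by
    refine tendsto_const_nhds.congr' ?_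
    filter_upwards [hu] with k hk
    rw [← mul_app, hS k hk]
  exact tendsto_nhds_unique h1 h2

/-- limits of closure elements exist -/
theorem Cl.exists_lim {ι : Type*} {K : Set (FreeGroup (Fin 2))} {f : ι → E →L[ℂ] E}
    (hf : ∀ i, Cl φ K (f i)) (u : Ultrafilter ι) : ∃ T, Cl φ K T ∧ WT f u T := by
  obtain ⟨T, hT⟩ := Pool.Agent.Helper25.WC.exists_lim f (fun i x => (hf i).norm_le x) u
  exact ⟨T, Cl.lim hf hT, hT⟩

/-- **Lemma C.** In a closure which is discrete in the norm at `δ` there is no injective sequence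
with a limit at least as far from `c`. -/
theorem no_seq {δ : E} (hnd : ∀ T, Cl φ Set.univ T → ∃ ε > 0, ∀ S, Cl φ Set.univ S → S ≠ T →
      ε ≤ ‖S δ - T δ‖) {f : ℕ → E →L[ℂ] E} (hf : ∀ n, Cl φ Set.univ (f n))
    (hinj : Function.Injective f) {T : E →L[ℂ] E} (hT : WT f (hyperfilter ℕ) T) (c : E) (r : ℝ)
    (h1 : ∀ n, ‖f n δ - c‖ ≤ r) (h2 : r ≤ ‖T δ - c‖) : False := by
  obtain ⟨ε, hε, hd⟩ := hnd T (Cl.lim hf hT)
  have hr : 0 ≤ r := (norm_nonneg _).trans (h1 0)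
  have h3 : Tendsto (fun n => ⟪T δ - c, f n δ - c⟫_ℂ) (hyperfilter ℕ)
      (𝓝 ⟪T δ - c, T δ - c⟫_ℂ) := by
    have := (hT (T δ - c) δ).sub_const ⟪T δ - c, c⟫_ℂ
    simp only [← inner_sub_right] at this
    exact this
  have h4 : Tendsto (fun n => (⟪T δ - c, f n δ - c⟫_ℂ).re) (hyperfilter ℕ)
      (𝓝 (‖T δ - c‖ ^ 2)) := by
    have := (Complex.continuous_re.tendsto _).comp h3
    have e : (⟪T δ - c, T δ - c⟫_ℂ).re = ‖T δ - c‖ ^ 2 := by
      rw [inner_self_eq_norm_sq_to_K]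
      norm_cast
    rw [e] at this
    exact this
  have h5 : ∀ᶠ n in (hyperfilter ℕ : Filter ℕ), ‖T δ - c‖ ^ 2 - ε ^ 2 / 2 <
      (⟪T δ - c, f n δ - c⟫_ℂ).re := h4.eventually_const_lt (by
    have : 0 < ε ^ 2 := by positivity
    linarith)
  have h6 : ∀ᶠ n in (hyperfilter ℕ : Filter ℕ), f n = T := by
    filter_upwards [h5] with n hn
    by_contra hne
    have h7 := hd (f n) (hf n) hne
    have h8 : ‖f n δ - T δ‖ ^ 2 = ‖f n δ - c‖ ^ 2 - 2 * (⟪T δ - c, f n δ - c⟫_ℂ).re +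
        ‖T δ - c‖ ^ 2 := by
      have e : f n δ - T δ = (f n δ - c) - (T δ - c) := by abel
      rw [e, @norm_sub_sq ℂ, inner_re_symm]
      rfl
    have h9 : ‖f n δ - c‖ ^ 2 ≤ ‖T δ - c‖ ^ 2 :=
      pow_le_pow_left₀ (norm_nonneg _) ((h1 n).trans h2) 2
    have h10 : ε ^ 2 ≤ ‖f n δ - T δ‖ ^ 2 := pow_le_pow_left₀ hε.le h7 2
    linarith
  have h7 : {n | f n = T}.Finite := by
    apply Set.Subsingleton.finite
    intro a ha b hb
    exact hinj (ha.trans hb.symm)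
  exact Filter.notMem_hyperfilter_of_finite h7 h6

end

end Pool.Agent.Helper25.WC
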