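import Mathlib
import Pool.Agent.Helper25.WC.Wot
import Pool.Agent.Helper25.WC.Kesten
import Pool.Agent.Helper25.WC.Emb

/-!
# Theorem W (MP_aa1ab3_an), goal AMEN

`Helper9.UGap`: `InL`, `dl`, `U`, `cj`, `std_LG`, `norm_mul_U`, `norm_cj`, `InL.single`, `InL.norm_single`, `inner_dl`,
`inner_star`, `inner_star'`, `U_norm_apply`, `U_mul`, `U_star` ...; `Helper49.DW.Op`: `InL_star`, `U_inv_app`, `U_app_inv`.
-/

set_option autoImplicit false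

namespace Pool.Agent.Helper25.WC

open scoped InnerProductSpace ComplexConjugate
open Pool.Agent.Helper9.UGap

noncomputable section

universe u

/-- **AMEN**. `G` is locally finite, `x ∈ L(G)` is not `0`, commutes with the `U(k)`, `k ∈ K`, `K` nonabelian, and the vectors
`U(k) x δ`, `k ∈ K`, are orthogonal: impossible.
PROOF. Write `e_h = lp.single 2 h 1`, `ξ_h := x e_h` (`h ∈ G`), `f : F_2 →* F_2` injective with values in `K` (`NA.embed`).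
For a finite subgroup `Q` of `G` put `φ_Q(w) := ∑ h ∈ Q, ‖⟪x e_h, U (f w) (x e_1)⟫‖ ^ 2`, `w ∈ F_2`.
(1) INVARIANCE: for `S, T ∈ L(G)`: `⟪S e_a, T e_b⟫ = ⟪S e_(a b⁻¹), T e_1⟫` (`InL.single`: `(S e_a) h = (S e_1) (h a⁻¹)`; `lp.inner_eq_tsum`, reindex by `Equiv.mulRight b`).
(2) SYMMETRY `φ_Q(w⁻¹) = φ_Q(w)`: `⟪x e_h, U(w⁻¹) x e_1⟫ = ⟪U(w) x e_h, x e_1⟫ = conj ⟪x e_1, U(w) x e_h⟫`, and by (1) (`S = x`, `T = U(w) x`) this is `conj ⟪x e_(h⁻¹), U(w) x e_1⟫`; `Q` is stable under inverses.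
(3) POSITIVE: `0 ≤ Bf φ_Q a a`: `φ_Q(k⁻¹ l) = ∑ h ∈ Q ‖⟪U(k) x e_h, U(l) x e_1⟫‖²` and by (1) `|Q| φ_Q(k⁻¹ l) = ∑ a, b ∈ Q, ‖⟪U(k) x e_a, U(l) x e_b⟫‖²`. For vectors `v_i` (`i` in a finite set) of a Hilbert space and reals `c_i`: `∑ i j, c_i c_j ‖⟪v_i, v_j⟫‖² ≥ 0`
(`Matrix.PosSemidef.hadamard` of the Gram matrix and its conjugate in `Mathlib/Analysis/Matrix/Order.lean`; or an orthonormal basis `b` of the span: it is `∑ p q, ‖∑ i, c_i ⟪b_p, v_i⟫ conj ⟪b_q, v_i⟫‖²`), with `i = (k, a)`, `c_i = a_k`.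
(4) SUMMABLE: for a finite set `F` of words, `∑ w ∈ F, φ_Q(w) ≤ C` with `C` independent of `F`: for each `h` the vectors `U(f w) x e_1 / ‖x e_1‖` are orthonormal (`ho`: `⟪U k x e_1, U l x e_1⟫ = ⟪x e_1, U(k⁻¹ l) x e_1⟫ = 0`; `f` injective), Bessel: `Orthonormal.sum_inner_products_le`.
(5) KESTEN (`kesten`): `φ_Q(of 0) + φ_Q(of 1) ≤ 31/16 * φ_Q(1)`.
(6) LIMIT: for `k ∈ K`: `⟪x e_h, U k x e_1⟫ = ((star x) U k x e_1) h` (`lp.inner_single_left`), `star x * U k * x = star x * x * U k` (from `hc`), so `∑ h : G, ‖..‖² = ‖(star x * x) (U k e_1)‖² = ‖(star x * x) e_1‖² =: c` (`norm_mul_U` with `std_LG`), and `c > 0` since `⟪e_1, star x x e_1⟫ = ‖x e_1‖² ≠ 0`.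
For every `η > 0` there is a finite set `A` with `∑ h ∈ A, ‖..‖² ≥ c - η` for `k = f (of 0), f (of 1)` and `φ_Q(1) ≤ c` for all `Q`. Take `Q ⊇ A`: `2 (c - η) ≤ 31/16 c` for every `η > 0`: contradiction. -/
def AMEN : Prop :=
  ∀ (G : Type u) [Group G] [DecidableEq G]
    (φ : FreeGroup (Fin 2) →* ↥(unitary (lp (fun _ : G => ℂ) 2 →L[ℂ] lp (fun _ : G => ℂ) 2))),
    (∀ A : Finset G, ∃ Q : Subgroup G, Finite Q ∧ ∀ a ∈ A, a ∈ Q) →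
    (∀ w, Pool.Agent.Helper9.UGap.InL (φ w).1) →
    ∀ K : Subgroup (FreeGroup (Fin 2)), NA K →
    ∀ x : lp (fun _ : G => ℂ) 2 →L[ℂ] lp (fun _ : G => ℂ) 2,
      Pool.Agent.Helper9.UGap.InL x → x dl ≠ 0 → (∀ k ∈ K, cj φ k x = x) →
      (∀ k ∈ K, k ≠ 1 → ⟪x dl, U φ k (x dl)⟫_ℂ = 0) → False

end

end Pool.Agent.Helper25.WC
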