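import Mathlib
import Pool.Agent.Helper25.WC.Goals

/-!
Theorem W, the abstract part: (A), (B), (D).
-/

set_option autoImplicit false

namespace Pool.Agent.Helper25.WC

open scoped InnerProductSpace ComplexConjugate
open Filter Topology
open Pool.Agent.Helper9.UGap

noncomputable section

variable {E : Type*} [NormedAddCommGroup E] [InnerProductSpace ℂ E] [CompleteSpace E]
variable {φ : FreeGroup (Fin 2) →* unitary (E →L[ℂ] E)}

omit [CompleteSpace E] in
/-- the norm of a weak limit -/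
theorem wt_norm {ι : Type*} {l : Filter ι} [l.NeBot] {f : ι → E →L[ℂ] E} {T : E →L[ℂ] E}
    (h : WT f l T) {δ c : E} {r : ℝ} (hr : Tendsto (fun i => ‖f i δ - c‖) l (𝓝 r)) :
    ‖T δ - c‖ ≤ r := by
  have h3 : Tendsto (fun n => ⟪T δ - c, f n δ - c⟫_ℂ) l (𝓝 ⟪T δ - c, T δ - c⟫_ℂ) := by
    have := (h (T δ - c) δ).sub_const ⟪T δ - c, c⟫_ℂ
    simp only [← inner_sub_right] at this
    exact this
  have h4 : ‖⟪T δ - c, T δ - c⟫_ℂ‖ ≤ ‖T δ - c‖ * r :=
    le_of_tendsto_of_tendsto h3.norm (hr.const_mul _)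
      (Eventually.of_forall fun n => norm_inner_le_norm _ _)
  rw [inner_self_eq_norm_sq_to_K] at h4
  have e : ‖((‖T δ - c‖ : ℂ)) ^ 2‖ = ‖T δ - c‖ * ‖T δ - c‖ := by
    rw [norm_pow, Complex.norm_real, norm_norm, sq]
  have h5 : ‖T δ - c‖ * ‖T δ - c‖ ≤ ‖T δ - c‖ * r := by
    rw [← e]; exact h4
  rcases (norm_nonneg (T δ - c)).eq_or_lt with h6 | h6
  · rw [← h6]
    exact ge_of_tendsto hr (Eventually.of_forall fun n => norm_nonneg _)
  · exact le_of_mul_le_mul_left h5 h6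

/-- the closure is a semigroup -/
theorem Cl.mul {K : Subgroup (FreeGroup (Fin 2))} {S T : E →L[ℂ] E} (hS : Cl φ K S)
    (hT : Cl φ K T) : Cl φ K (S * T) := by
  obtain ⟨u, hu, h⟩ := hS.ultra
  have h1 : Tendsto (fun g => mc (U φ g * T)) (u : Filter _) (𝓝 (mc (S * T))) := by
    rw [← WT.iff]
    intro x y
    exact h x (T y)
  refine isClosed_closure.mem_of_tendsto h1 ?_
  filter_upwards [hu] with g hg
  exact hT.mul_left hg

section proj
variable {K : Subgroup (FreeGroup (Fin 2))} {p : E →L[ℂ] E} (hp : Cl φ K p)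
  (hf : ∀ k ∈ K, U φ k * p = p)
include hp hf

theorem proj_star : star p = p := by
  have h1 : star p * p = p := hp.adj.fix hf
  have h2 := congrArg star h1
  rw [star_mul, star_star] at h2
  exact h2.symm.trans h1

theorem proj_left {T : E →L[ℂ] E} (hT : Cl φ K T) : T * p = p := hT.fix hf

theorem proj_right {T : E →L[ℂ] E} (hT : Cl φ K T) : p * T = p := by
  have h1 : star T * p = p := hT.adj.fix hf
  have h2 := congrArg star h1
  rwa [star_mul, star_star, proj_star hp hf] at h2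

theorem proj_cj {k : FreeGroup (Fin 2)} (hk : k ∈ K) : cj φ k p = p := by
  unfold cj
  rw [hf k hk, proj_right hp hf (Cl.of (K.inv_mem hk))]

end proj

variable {δ : E} (hnd : ∀ T, Cl φ Set.univ T → ∃ ε > 0, ∀ S, Cl φ Set.univ S → S ≠ T →
      ε ≤ ‖S δ - T δ‖)
include hnd

/-- **(A)** -/
theorem stepA {K : Subgroup (FreeGroup (Fin 2))} (hK : NA K) :
    ∃ K₁ ≤ K, NA K₁ ∧ ∃ p, Cl φ K₁ p ∧ ∀ k ∈ K₁, U φ k * p = p := by
  classical
  set S : Set ℝ := {r | ∃ T, Cl φ K T ∧ ‖T δ‖ = r} with hSdef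
  have hne : S.Nonempty := ⟨_, U φ 1, Cl.of K.one_mem, rfl⟩
  have hbd : BddBelow S := ⟨0, by rintro r ⟨T, -, rfl⟩; exact norm_nonneg _⟩
  set M := sInf S with hM
  have hMle : ∀ T, Cl φ K T → M ≤ ‖T δ‖ := fun T hT => csInf_le hbd ⟨T, hT, rfl⟩
  obtain ⟨v, -, hv, hvS⟩ := exists_seq_tendsto_sInf hne hbd
  choose f hf hfv using hvS
  obtain ⟨T0, hT0, hT0l⟩ := Cl.exists_lim hf (hyperfilter ℕ)
  have hT0M : ‖T0 δ‖ = M := by
    apply le_antisymm _ (hMle T0 hT0)
    have h1 : Tendsto (fun n => ‖f n δ - 0‖) (hyperfilter ℕ) (𝓝 M) := by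
      simp only [sub_zero, hfv]
      exact hv.mono_left Nat.hyperfilter_le_atTop
    have := wt_norm hT0l h1
    rwa [sub_zero] at this
  set Mn : Set (E →L[ℂ] E) := {T | Cl φ K T ∧ ‖T δ‖ = M} with hMn
  have hfin : Mn.Finite := by
    by_contra hinf
    let g := Set.Infinite.natEmbedding Mn hinf
    obtain ⟨T, hT, hTl⟩ := Cl.exists_lim (f := fun n => (g n).1) (fun n => (g n).2.1)
      (hyperfilter ℕ)
    refine no_seq hnd (f := fun n => (g n).1) (fun n => (g n).2.1.mono (Set.subset_univ _))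
      (fun a b hab => g.injective (Subtype.ext hab)) hTl 0 M (fun n => ?_) ?_
    · rw [sub_zero]; exact (g n).2.2.le
    · rw [sub_zero]; exact hMle T hT
  have hmem : ∀ k ∈ K, ∀ T ∈ Mn, U φ k * T ∈ Mn := by
    rintro k hk T ⟨h1, h2⟩
    refine ⟨h1.mul_left hk, ?_⟩
    rw [mul_app, U_norm_apply, h2]
  let act : K → Equiv.Perm Mn := fun k =>
    { toFun := fun T => ⟨U φ k.1 * T.1, hmem _ k.2 _ T.2⟩
      invFun := fun T => ⟨U φ k.1⁻¹ * T.1, hmem _ (K.inv_mem k.2) _ T.2⟩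
      left_inv := fun T => Subtype.ext (by
        show U φ k.1⁻¹ * (U φ k.1 * T.1) = T.1
        rw [← mul_assoc, U_inv_mul, one_mul])
      right_inv := fun T => Subtype.ext (by
        show U φ k.1 * (U φ k.1⁻¹ * T.1) = T.1
        rw [← mul_assoc, U_mul_inv, one_mul]) }
  let π : K →* Equiv.Perm Mn :=
    { toFun := act
      map_one' := by
        ext T : 2
        show U φ 1 * T.1 = T.1
        rw [U_one, one_mul]
      map_mul' := fun a b => by
        ext T : 2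
        show U φ (a.1 * b.1) * T.1 = U φ a.1 * (U φ b.1 * T.1)
        rw [U_mul, mul_assoc] }
  have hπ : ∀ (k : K) (T : Mn), ((π k) T).1 = U φ k.1 * T.1 := fun _ _ => rfl
  haveI : Finite Mn := hfin
  let K₁ : Subgroup (FreeGroup (Fin 2)) := π.ker.map K.subtype
  have hK₁ : K₁ ≤ K := by
    rintro _ ⟨k, -, rfl⟩
    exact k.2
  have hfixM : ∀ k ∈ K₁, ∀ T ∈ Mn, U φ k * T = T := by
    rintro _ ⟨k, hk, rfl⟩ T hT
    have h1 : π k = 1 := hk
    have h2 := hπ k ⟨T, hT⟩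
    rw [h1] at h2
    exact h2.symm
  refine ⟨K₁, hK₁, hK.of_pow fun k hk => ?_, ?_⟩
  · obtain ⟨n, hn, hn1⟩ := (isOfFinOrder_of_finite (π ⟨k, hk⟩)).exists_pow_eq_one
    refine ⟨n, hn.ne', ⟨⟨k, hk⟩ ^ n, ?_, ?_⟩⟩
    · show π (⟨k, hk⟩ ^ n) = 1
      rw [map_pow, hn1]
    · simp
  · obtain ⟨u, hu, hul⟩ := hT0.ultra
    have hcov : (⋃ σ ∈ (Set.univ : Set (Equiv.Perm Mn)),
        {g : FreeGroup (Fin 2) | ∃ h : g ∈ K, π ⟨g, h⟩ = σ}) ∈ u := by
      refine mem_of_superset hu fun g hg => ?_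
      simp only [Set.mem_univ, Set.iUnion_true, Set.mem_iUnion]
      exact ⟨π ⟨g, hg⟩, hg, rfl⟩
    obtain ⟨σ, -, hσ⟩ := (Ultrafilter.finite_biUnion_mem_iff Set.finite_univ).1 hcov
    obtain ⟨k0, hk0, hk0σ⟩ := Ultrafilter.nonempty_of_mem hσ
    have hpM : U φ k0⁻¹ * T0 ∈ Mn := hmem _ (K.inv_mem hk0) _ ⟨hT0, hT0M⟩
    refine ⟨U φ k0⁻¹ * T0, ?_, fun k hk => hfixM k hk _ hpM⟩
    refine Cl.of_tendsto (l := (u : Filter _)) (k := fun g => k0⁻¹ * g) ?_ ?_
    · filter_upwards [hσ] with g hg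
      obtain ⟨hgK, hgσ⟩ := hg
      refine ⟨⟨k0, hk0⟩⁻¹ * ⟨g, hgK⟩, ?_, rfl⟩
      show π _ = 1
      rw [map_mul, map_inv, hgσ, hk0σ, inv_mul_cancel]
    · intro x y
      have := hul (U φ k0⁻¹⁻¹ x) y
      have e : ∀ z : E, ⟪U φ k0⁻¹⁻¹ x, z⟫_ℂ = ⟪x, U φ k0⁻¹ z⟫_ℂ := by
        intro z
        rw [inner_star', U_star]
      simp only [e] at this
      simp only [U_mul, mul_app]
      exact this

variable {P : (E →L[ℂ] E) → Prop} (hS : Std P δ) (hP : ∀ T, Cl φ Set.univ T → P T)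
  (hinj : ∀ w, U φ w = 1 → w = 1)
  (hA : ∀ K : Subgroup (FreeGroup (Fin 2)), NA K → ∀ x, P x → x δ ≠ 0 →
    (∀ k ∈ K, cj φ k x = x) → (∀ k ∈ K, k ≠ 1 → ⟪x δ, U φ k (x δ)⟫_ℂ = 0) → False)
include hS hP hinj hA

/-- **(B)** -/
theorem stepB {K : Subgroup (FreeGroup (Fin 2))} (hK : NA K) {p : E →L[ℂ] E} (hp : Cl φ K p)
    (hf : ∀ k ∈ K, U φ k * p = p) :
    ∃ K' ≤ K, NA K' ∧ ∃ p', Cl φ K' p' ∧ (∀ k ∈ K', U φ k * p' = p') ∧ p' * p = p ∧ p' ≠ p := by
  classical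
  have hPU : ∀ w, P (U φ w) := fun w => hP _ (Cl.of (Set.mem_univ _))
  have hun : ∀ {T : E →L[ℂ] E}, Cl φ K T → Cl φ Set.univ T := fun hT =>
    hT.mono (Set.subset_univ _)
  have hPp : P p := hP p (hun hp)
  have hps : star p = p := proj_star hp hf
  have hpp : p * p = p := proj_left hp hf hp
  have h1p : (1 : E →L[ℂ] E) ≠ p := by
    intro e
    obtain ⟨a, ha, b, hb, hab⟩ := hK
    apply (na_ne hab).1
    apply hinj
    have := hf a ha
    rwa [← e, mul_one] at this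
  -- the distances to `p`
  set D : Set ℝ := {r | ∃ T, Cl φ K T ∧ T ≠ p ∧ ‖T δ - p δ‖ = r} with hDdef
  have hne : D.Nonempty := ⟨_, 1, by
    have := Cl.of (φ := φ) K.one_mem
    rwa [U_one] at this, h1p, rfl⟩
  have hbd : BddBelow D := ⟨0, by rintro r ⟨T, -, -, rfl⟩; exact norm_nonneg _⟩
  set r := sInf D with hr
  have hrle : ∀ T, Cl φ K T → T ≠ p → r ≤ ‖T δ - p δ‖ := fun T hT hTp =>
    csInf_le hbd ⟨T, hT, hTp, rfl⟩
  have hr0 : 0 < r := by
    obtain ⟨ε, hε, h⟩ := hnd p (hun hp)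
    refine hε.trans_le (le_csInf hne ?_)
    rintro _ ⟨T, hT, hTp, rfl⟩
    exact h T (hun hT) hTp
  -- `⟨δ, (T* T - p) δ⟩ = ‖(T - p) δ‖²`
  have hsq : ∀ T, Cl φ K T → (⟪δ, (star T * T) δ - p δ⟫_ℂ).re = ‖T δ - p δ‖ ^ 2 := by
    intro T hT
    have e1 : (star (T - p)) * (T - p) = star T * T - p := by
      rw [star_sub, hps, mul_sub, sub_mul, sub_mul, proj_left hp hf hT.adj,
        proj_right hp hf hT, hpp]
      abel
    have e2 : (star T * T) δ - p δ = ((star (T - p)) * (T - p)) δ := by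
      rw [e1]; rfl
    rw [e2, mul_app, ← inner_star]
    have e3 : (T - p) δ = T δ - p δ := rfl
    rw [e3, inner_self_eq_norm_sq_to_K]
    norm_cast
  obtain ⟨v, -, hv, hvD⟩ := exists_seq_tendsto_sInf hne hbd
  choose f hfC hfp hfv using hvD
  have hgC : ∀ n, Cl φ K (star (f n) * f n) := fun n => (hfC n).adj.mul (hfC n)
  obtain ⟨y, hy, hyl⟩ := Cl.exists_lim hgC (hyperfilter ℕ)
  have hy1 : r ^ 2 ≤ (⟪δ, y δ - p δ⟫_ℂ).re := by
    have h1 := (hyl δ δ).sub_const ⟪δ, p δ⟫_ℂ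
    simp only [← inner_sub_right] at h1
    have h2 := (Complex.continuous_re.tendsto _).comp h1
    refine ge_of_tendsto h2 (Eventually.of_forall fun n => ?_)
    show r ^ 2 ≤ (⟪δ, (star (f n) * f n) δ - p δ⟫_ℂ).re
    rw [hsq _ (hfC n)]
    exact pow_le_pow_left₀ hr0.le (hrle _ (hfC n) (hfp n)) 2
  have key : ∀ T : E →L[ℂ] E, r ^ 2 ≤ (⟪δ, T δ - p δ⟫_ℂ).re → T ≠ p := by
    rintro T hT rfl
    rw [sub_self, inner_zero_right] at hT
    have : 0 < r ^ 2 := by positivity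
    simp only [Complex.zero_re] at hT
    linarith
  have hyp : y ≠ p := key y hy1
  have hy2 : ‖y δ - p δ‖ ≤ r := by
    have hub : ∀ n, ‖(star (f n) * f n) δ - p δ‖ ≤ v n := by
      intro n
      have e : (star (f n) * f n) δ - p δ = (star (f n)) (f n δ - p δ) := by
        rw [map_sub, mul_app]
        congr 1
        rw [← mul_app, proj_left hp hf (hfC n).adj]
      rw [e, ← hfv n]
      exact (hfC n).adj.norm_le _
    have h3 : Tendsto (fun n => ⟪y δ - p δ, (star (f n) * f n) δ - p δ⟫_ℂ) (hyperfilter ℕ)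
        (𝓝 ⟪y δ - p δ, y δ - p δ⟫_ℂ) := by
      have := (hyl (y δ - p δ) δ).sub_const ⟪y δ - p δ, p δ⟫_ℂ
      simp only [← inner_sub_right] at this
      exact this
    have hv' : Tendsto v (hyperfilter ℕ) (𝓝 r) := hv.mono_left Nat.hyperfilter_le_atTop
    have h4 : ‖⟪y δ - p δ, y δ - p δ⟫_ℂ‖ ≤ ‖y δ - p δ‖ * r :=
      le_of_tendsto_of_tendsto h3.norm (hv'.const_mul _)
        (Eventually.of_forall fun n => (norm_inner_le_norm _ _).trans
          (mul_le_mul_of_nonneg_left (hub n) (norm_nonneg _)))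
    rw [inner_self_eq_norm_sq_to_K] at h4
    have e : ‖((‖y δ - p δ‖ : ℂ)) ^ 2‖ = ‖y δ - p δ‖ * ‖y δ - p δ‖ := by
      rw [norm_pow, Complex.norm_real, norm_norm, sq]
    have h5 : ‖y δ - p δ‖ * ‖y δ - p δ‖ ≤ ‖y δ - p δ‖ * r := by
      rw [← e]; exact h4
    rcases (norm_nonneg (y δ - p δ)).eq_or_lt with h6 | h6
    · rw [← h6]; exact hr0.le
    · exact le_of_mul_le_mul_left h5 h6
  have hyr : ‖y δ - p δ‖ = r := le_antisymm hy2 (hrle y hy hyp)
  -- the finite set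
  set F : Set (E →L[ℂ] E) := {T | Cl φ K T ∧ ‖T δ - p δ‖ = r ∧ r ^ 2 ≤ (⟪δ, T δ - p δ⟫_ℂ).re}
    with hF
  have hFfin : F.Finite := by
    by_contra hinf
    let g := Set.Infinite.natEmbedding F hinf
    obtain ⟨T, hT, hTl⟩ := Cl.exists_lim (f := fun n => (g n).1) (fun n => (g n).2.1)
      (hyperfilter ℕ)
    refine no_seq hnd (f := fun n => (g n).1) (fun n => hun (g n).2.1)
      (fun a b hab => g.injective (Subtype.ext hab)) hTl (p δ) r (fun n => (g n).2.2.1.le) ?_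
    apply hrle T hT
    apply key
    have h1 := (hTl δ δ).sub_const ⟪δ, p δ⟫_ℂ
    simp only [← inner_sub_right] at h1
    have h2 := (Complex.continuous_re.tendsto _).comp h1
    exact ge_of_tendsto h2 (Eventually.of_forall fun n => (g n).2.2.2)
  have hPT : ∀ T, Cl φ K T → P (T - p) := fun T hT => hS.sub (hP T (hun hT)) hPp
  have hcjF : ∀ k ∈ K, ∀ T ∈ F, cj φ k T ∈ F := by
    rintro k hk T ⟨h1, h2, h3⟩
    have e : cj φ k T δ - p δ = cj φ k (T - p) δ := by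
      rw [cj_sub, proj_cj hp hf hk]; rfl
    refine ⟨h1.cj hk, ?_, ?_⟩
    · rw [e, norm_cj φ hS hPU k (hPT T h1)]
      exact h2
    · rw [e, tau_cj φ hS hPU k (hPT T h1)]
      exact h3
  have hyF : y ∈ F := ⟨hy, hyr, hy1⟩
  -- the stabiliser of `y`
  let K₂ : Subgroup (FreeGroup (Fin 2)) :=
    { carrier := {k | k ∈ K ∧ cj φ k y = y}
      one_mem' := ⟨K.one_mem, by unfold cj; rw [inv_one, U_one, one_mul, mul_one]⟩
      mul_mem' := by
        rintro a b ⟨ha, ha'⟩ ⟨hb, hb'⟩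
        exact ⟨K.mul_mem ha hb, by rw [← cj_cj, hb', ha']⟩
      inv_mem' := by
        rintro a ⟨ha, ha'⟩
        refine ⟨K.inv_mem ha, ?_⟩
        conv_lhs => rw [← ha']
        rw [cj_cj, inv_mul_cancel]
        unfold cj
        rw [inv_one, U_one, one_mul, mul_one] }
  have hK₂ : ∀ {k}, k ∈ K₂ ↔ k ∈ K ∧ cj φ k y = y := Iff.rfl
  have hK₂NA : NA K₂ := by
    refine hK.of_pow fun k hk => ?_
    haveI : Finite F := hFfin
    obtain ⟨i, j, hij, he⟩ := Finite.exists_ne_map_eq_of_infinite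
      (fun n : ℕ => (⟨cj φ (k ^ n) y, hcjF _ (K.pow_mem hk n) y hyF⟩ : F))
    have he' : cj φ (k ^ i) y = cj φ (k ^ j) y := congrArg Subtype.val he
    wlog hlt : i < j generalizing i j
    · exact this j i hij.symm he.symm he'.symm (by omega)
    refine ⟨j - i, by omega, hK₂.2 ⟨K.pow_mem hk _, ?_⟩⟩
    have e1 : k ^ j = k ^ i * k ^ (j - i) := by rw [← pow_add]; congr 1; omega
    rw [e1, ← cj_cj] at he'
    have h2 := congrArg (cj φ (k ^ i)⁻¹) he'
    rw [cj_cj, cj_cj, inv_mul_cancel] at h2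
    have e0 : ∀ B : E →L[ℂ] E, cj φ 1 B = B := by
      intro B; unfold cj; rw [inv_one, U_one, one_mul, mul_one]
    rw [e0, e0] at h2
    exact h2.symm
  let K' : Subgroup (FreeGroup (Fin 2)) :=
    { carrier := {k | k ∈ K₂ ∧ U φ k * y = y}
      one_mem' := ⟨K₂.one_mem, by rw [U_one, one_mul]⟩
      mul_mem' := by
        rintro a b ⟨ha, ha'⟩ ⟨hb, hb'⟩
        exact ⟨K₂.mul_mem ha hb, by rw [U_mul, mul_assoc, hb', ha']⟩
      inv_mem' := by
        rintro a ⟨ha, ha'⟩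
        refine ⟨K₂.inv_mem ha, ?_⟩
        conv_lhs => rw [← ha', ← mul_assoc, U_inv_mul, one_mul] }
  have hK'mem : ∀ {k}, k ∈ K' ↔ k ∈ K₂ ∧ U φ k * y = y := Iff.rfl
  by_cases htriv : ∃ c ∈ K', c ≠ 1
  · obtain ⟨c, hc, hc1⟩ := htriv
    have hNA : NA K' := hK₂NA.normal hc1 hc fun d hd => by
      refine hK'mem.2 ⟨K₂.mul_mem (K₂.mul_mem hd (hK'mem.1 hc).1) (K₂.inv_mem hd), ?_⟩
      have h1 : U φ d * y * U φ d⁻¹ = y := (hK₂.1 hd).2
      have h2 : U φ d⁻¹ * y = y * U φ d⁻¹ := by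
        calc U φ d⁻¹ * y = U φ d⁻¹ * (U φ d * y * U φ d⁻¹) := by rw [h1]
          _ = (U φ d⁻¹ * U φ d) * (y * U φ d⁻¹) := by simp only [mul_assoc]
          _ = _ := by rw [U_inv_mul, one_mul]
      calc U φ (d * c * d⁻¹) * y = U φ d * U φ c * (U φ d⁻¹ * y) := by
            rw [U_mul, U_mul, mul_assoc]
        _ = U φ d * (U φ c * y) * U φ d⁻¹ := by rw [h2]; simp only [mul_assoc]
        _ = y := by rw [(hK'mem.1 hc).2, h1]
    obtain ⟨K'', hK'', hNA'', p'', hp'', hfix''⟩ := stepA hnd hNA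
    have hle : K'' ≤ K := fun k hk => (hK₂.1 (hK'mem.1 (hK'' hk)).1).1
    refine ⟨K'', hle, hNA'', p'', hp'', hfix'', ?_, ?_⟩
    · exact hp''.fix fun k hk => hf k (hle hk)
    · intro e
      have h1 : p'' * y = y := hp''.fix fun k hk => (hK'mem.1 (hK'' hk)).2
      rw [e, proj_right hp hf hy] at h1
      exact hyp h1.symm
  · exfalso
    push Not at htriv
    have hx : P (y - p) := hPT y hy
    have hcj : ∀ k ∈ K₂, cj φ k (y - p) = y - p := by
      intro k hk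
      rw [cj_sub, (hK₂.1 hk).2, proj_cj hp hf (hK₂.1 hk).1]
    have hxδ : (y - p) δ = y δ - p δ := rfl
    refine hA K₂ hK₂NA (y - p) hx ?_ hcj ?_
    · intro h0
      rw [hxδ] at h0
      rw [h0, norm_zero] at hyr
      exact hr0.ne hyr
    · intro k0 hk0 hk01
      by_contra hψ
      obtain ⟨h, hh, hnc⟩ := hK₂NA.exists_not hk01
      set kn : ℕ → FreeGroup (Fin 2) := fun n => h ^ n * k0 * (h ^ n)⁻¹ with hkn
      have hknK : ∀ n, kn n ∈ K₂ := fun n =>
        K₂.mul_mem (K₂.mul_mem (K₂.pow_mem hh n) hk0) (K₂.inv_mem (K₂.pow_mem hh n))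
      have hknc : ∀ n, ⟪(y - p) δ, U φ (kn n) ((y - p) δ)⟫_ℂ = ⟪(y - p) δ, U φ k0 ((y - p) δ)⟫_ℂ := by
        intro n
        have e1 : cj φ (h ^ n) (star (y - p) * (U φ k0 * (y - p))) =
            star (y - p) * (U φ (kn n) * (y - p)) := by
          rw [cj_mul, cj_mul, ← cj_star, hcj _ (K₂.pow_mem hh n), cj_U]
        have e2 := tau_cj φ hS hPU (h ^ n) (hS.mul (hS.star hx) (hS.mul (hPU k0) hx))
        rw [e1] at e2
        simpa only [mul_app, inner_star', star_star] using e2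
      have hinjk : ∀ n m, U φ (kn n) * y = U φ (kn m) * y → n = m := by
        intro n m he
        have h1 : (kn m)⁻¹ * kn n = 1 := by
          apply htriv
          refine hK'mem.2 ⟨K₂.mul_mem (K₂.inv_mem (hknK m)) (hknK n), ?_⟩
          rw [U_mul, mul_assoc, he, ← mul_assoc, U_inv_mul, one_mul]
        have h2 : kn n = kn m := (inv_mul_eq_one.1 h1).symm
        by_contra hnm
        wlog hlt : m < n generalizing n m
        · exact this m n he.symm (by rw [h2, inv_mul_cancel]) h2.symm (Ne.symm hnm) (by omega)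
        apply hnc
        have h3 : Commute (h ^ (n - m)) k0 := by
          have e1 : h ^ n = h ^ m * h ^ (n - m) := by rw [← pow_add]; congr 1; omega
          simp only [hkn] at h2
          rw [e1] at h2
          show h ^ (n - m) * k0 = k0 * h ^ (n - m)
          have h4 := congrArg (fun z => (h ^ m)⁻¹ * z * (h ^ m) * h ^ (n - m)) h2
          calc h ^ (n - m) * k0 = (h ^ m)⁻¹ * (h ^ m * h ^ (n - m) * k0 *
              (h ^ m * h ^ (n - m))⁻¹) * (h ^ m) * h ^ (n - m) := by group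
            _ = (h ^ m)⁻¹ * (h ^ m * k0 * (h ^ m)⁻¹) * (h ^ m) * h ^ (n - m) := h4
            _ = k0 * h ^ (n - m) := by group
        exact (comm_of_pow (by omega) h3).symm
      have hfC' : ∀ n, Cl φ K (U φ (kn n) * y) := fun n => hy.mul_left (hK₂.1 (hknK n)).1
      obtain ⟨T, hT, hTl⟩ := Cl.exists_lim hfC' (hyperfilter ℕ)
      have hev : ∀ n, (U φ (kn n) * y) δ - p δ = U φ (kn n) ((y - p) δ) := by
        intro n
        rw [hxδ, map_sub, ← mul_app, ← mul_app, hf _ (hK₂.1 (hknK n)).1]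
      refine no_seq hnd (f := fun n => U φ (kn n) * y) (fun n => hun (hfC' n))
        (fun a b hab => hinjk a b hab) hTl (p δ) r (fun n => ?_) ?_
      · show ‖(U φ (kn n) * y) δ - p δ‖ ≤ r
        rw [hev, U_norm_apply, hxδ, hyr]
      · apply hrle T hT
        rintro rfl
        apply hψ
        have h1 := (hTl ((y - T) δ) δ).sub_const ⟪(y - T) δ, T δ⟫_ℂ
        simp only [← inner_sub_right] at h1
        rw [sub_self, inner_zero_right] at h1
        have h2 : ∀ n, ⟪(y - T) δ, (U φ (kn n) * y) δ - T δ⟫_ℂ =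
            ⟪(y - T) δ, U φ k0 ((y - T) δ)⟫_ℂ := by
          intro n
          rw [hev, hknc]
        simp only [h2] at h1
        exact tendsto_nhds_unique tendsto_const_nhds h1

/-- **(D)** -/
theorem main_false : False := by
  classical
  let X := {q : Subgroup (FreeGroup (Fin 2)) × (E →L[ℂ] E) //
    NA q.1 ∧ Cl φ q.1 q.2 ∧ ∀ k ∈ q.1, U φ k * q.2 = q.2}
  have hnext : ∀ q : X, ∃ q' : X, q'.1.1 ≤ q.1.1 ∧ q'.1.2 * q.1.2 = q.1.2 ∧ q'.1.2 ≠ q.1.2 := by
    rintro ⟨⟨K, p⟩, hK, hp, hf⟩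
    obtain ⟨K', hle, hNA, p', hp', hf', h1, h2⟩ := stepB hnd hS hP hinj hA hK hp hf
    exact ⟨⟨⟨K', p'⟩, hNA, hp', hf'⟩, hle, h1, h2⟩
  choose nx hnx1 hnx2 hnx3 using hnext
  obtain ⟨K0, -, hK0, p0, hp0, hf0⟩ := stepA hnd na_top
  let s : ℕ → X := fun n => nx^[n] ⟨⟨K0, p0⟩, hK0, hp0, hf0⟩
  have hs : ∀ n, s (n + 1) = nx (s n) := fun n => Function.iterate_succ_apply' nx n _
  set p : ℕ → E →L[ℂ] E := fun n => (s n).1.2 with hpdef
  have hpC : ∀ n, Cl φ (s n).1.1 (p n) := fun n => (s n).2.2.1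
  have hpf : ∀ n, ∀ k ∈ (s n).1.1, U φ k * p n = p n := fun n => (s n).2.2.2
  have hstar : ∀ n, star (p n) = p n := fun n => proj_star (hpC n) (hpf n)
  have hmul1 : ∀ n, p (n + 1) * p n = p n := by
    intro n
    show (s (n + 1)).1.2 * _ = _
    rw [hs]
    exact hnx2 (s n)
  have hne1 : ∀ n, p (n + 1) ≠ p n := by
    intro n
    show (s (n + 1)).1.2 ≠ _
    rw [hs]
    exact hnx3 (s n)
  have hmul : ∀ m d, p (m + d) * p m = p m := by
    intro m d
    induction d with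
    | zero => exact proj_left (hpC m) (hpf m) (hpC m)
    | succ d ih =>
      calc p (m + (d + 1)) * p m = p (m + d + 1) * (p (m + d) * p m) := by rw [ih]; rfl
        _ = (p (m + d + 1) * p (m + d)) * p m := by rw [mul_assoc]
        _ = p m := by rw [hmul1, ih]
  have hmul' : ∀ m d, p m * p (m + d) = p m := by
    intro m d
    have := congrArg star (hmul m d)
    rwa [star_mul, hstar, hstar] at this
  have hinj' : Function.Injective p := by
    intro a b hab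
    by_contra hne
    wlog hlt : a < b generalizing a b
    · exact this hab.symm (Ne.symm hne) (by omega)
    obtain ⟨d, rfl⟩ : ∃ d, b = a + 1 + d := ⟨b - (a + 1), by omega⟩
    apply hne1 a
    have h1 := hmul (a + 1) d
    rw [← hab] at h1
    have h2 := hmul' a 1
    rw [h1] at h2
    exact h2
  have hun : ∀ n, Cl φ Set.univ (p n) := fun n => (hpC n).mono (Set.subset_univ _)
  obtain ⟨T, hT, hTl⟩ := Cl.exists_lim hun (hyperfilter ℕ)
  refine no_seq hnd hun hinj' hTl 0 ‖T δ‖ (fun n => ?_) (by rw [sub_zero])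
  rw [sub_zero]
  have e : p n * T = p n := by
    refine op_ext fun x y => ?_
    have h1 := hTl (p n x) y
    have h2 : ∀ z : E, ⟪p n x, z⟫_ℂ = ⟪x, p n z⟫_ℂ := by
      intro z
      rw [inner_star', hstar]
    simp only [h2] at h1
    have h3 : Tendsto (fun i => ⟪x, p n (p i y)⟫_ℂ) (hyperfilter ℕ) (𝓝 ⟪x, p n y⟫_ℂ) := by
      refine tendsto_const_nhds.congr' ?_
      have h4 : ∀ᶠ i in (hyperfilter ℕ : Filter ℕ), n ≤ i :=
        Nat.hyperfilter_le_atTop (eventually_ge_atTop n)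
      filter_upwards [h4] with i hi
      obtain ⟨d, rfl⟩ := Nat.exists_eq_add_of_le hi
      rw [← mul_app, hmul']
    exact tendsto_nhds_unique h1 h3
  calc ‖p n δ‖ = ‖(p n * T) δ‖ := by rw [e]
    _ = ‖p n (T δ)‖ := rfl
    _ ≤ ‖T δ‖ := (hpC n).norm_le _

end

end Pool.Agent.Helper25.WC
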