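import Mathlib
import Pool.Agent.Helper25.WC.Core

/-!
Theorem W with an accumulation point which is a projection: the abstract part.
-/

set_option autoImplicit false

namespace Pool.Agent.Helper25.WC.Pr

open scoped InnerProductSpace ComplexConjugate
open Filter Topology
open Pool.Agent.Helper9.UGap
open Pool.Agent.Helper25.WC

noncomputable section

variable {E : Type*} [NormedAddCommGroup E] [InnerProductSpace ℂ E] [CompleteSpace E]
variable {φ : FreeGroup (Fin 2) →* unitary (E →L[ℂ] E)}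

/-- the vector `δ` is separating -/
theorem sep {P : (E →L[ℂ] E) → Prop} {δ : E} (hS : Std P δ) {S T : E →L[ℂ] E} (h1 : P S)
    (h2 : P T) (h : S δ = T δ) : S = T := by
  have h3 : P (S - T) := hS.sub h1 h2
  have h4 : (S - T) δ = 0 := by
    show S δ - T δ = 0
    rw [h, sub_self]
  ext f
  rw [← sub_eq_zero]
  show (S - T) f = 0
  rw [← norm_le_zero_iff]
  refine le_of_forall_pos_le_add fun ε hε => ?_
  obtain ⟨η, hη, h5⟩ := hS.dom f ‖S - T‖ ε hε
  have := h5 (S - T) h3 le_rfl (by rw [h4, norm_zero]; exact hη.le)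
  linarith

/-- equality in `‖T* v‖ ≤ ‖v‖` -/
theorem eq_of_norm {T : E →L[ℂ] E} {v : E} (hT : ∀ x, ‖T x‖ ≤ ‖x‖) (h : ‖v‖ ≤ ‖(star T) v‖)
    (h' : ‖(star T) v‖ ≤ ‖v‖) : T ((star T) v) = v := by
  have h1 : ‖T ((star T) v) - v‖ ^ 2 ≤ 0 := by
    rw [@norm_sub_sq ℂ, inner_star]
    have e : (RCLike.re ⟪(star T) v, (star T) v⟫_ℂ : ℝ) = ‖(star T) v‖ ^ 2 := by
      rw [inner_self_eq_norm_sq_to_K]
      norm_cast
    rw [e]
    have h2 := pow_le_pow_left₀ (norm_nonneg _) (hT ((star T) v)) 2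
    have h3 := pow_le_pow_left₀ (norm_nonneg _) h 2
    nlinarith
  have h2 : ‖T ((star T) v) - v‖ = 0 := by
    have := sq_nonneg ‖T ((star T) v) - v‖
    exact pow_eq_zero_iff (two_ne_zero) |>.1 (le_antisymm h1 this)
  exact sub_eq_zero.1 (norm_eq_zero.1 h2)

variable {δ : E}

/-- a bound for a weak limit -/
theorem wt_le {ι : Type*} {l : Filter ι} [l.NeBot] {f : ι → E →L[ℂ] E} {T : E →L[ℂ] E}
    (h : WT f l T) {c : E} {r : ℝ} (hr0 : 0 ≤ r) (hr : ∀ i, ‖f i δ - c‖ ≤ r) :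
    ‖T δ - c‖ ≤ r := by
  have h3 : Tendsto (fun n => ⟪T δ - c, f n δ - c⟫_ℂ) l (𝓝 ⟪T δ - c, T δ - c⟫_ℂ) := by
    have := (h (T δ - c) δ).sub_const ⟪T δ - c, c⟫_ℂ
    simp only [← inner_sub_right] at this
    exact this
  have h4 : ‖⟪T δ - c, T δ - c⟫_ℂ‖ ≤ ‖T δ - c‖ * r :=
    le_of_tendsto h3.norm (Eventually.of_forall fun n => (norm_inner_le_norm _ _).trans
      (mul_le_mul_of_nonneg_left (hr n) (norm_nonneg _)))
  rw [inner_self_eq_norm_sq_to_K] at h4
  have e : ‖((‖T δ - c‖ : ℂ)) ^ 2‖ = ‖T δ - c‖ * ‖T δ - c‖ := by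
    rw [norm_pow, Complex.norm_real, norm_norm, sq]
  have h5 : ‖T δ - c‖ * ‖T δ - c‖ ≤ ‖T δ - c‖ * r := by
    rw [← e]; exact h4
  rcases (norm_nonneg (T δ - c)).eq_or_lt with h6 | h6
  · rw [← h6]; exact hr0
  · exact le_of_mul_le_mul_left h5 h6

/-- weak convergence to a point at least as far is convergence in norm -/
theorem wt_conv {f : ℕ → E →L[ℂ] E} {T : E →L[ℂ] E} (hT : WT f (hyperfilter ℕ) T) {c : E} {r : ℝ}
    (h1 : ∀ n, ‖f n δ - c‖ ≤ r) (h2 : r ≤ ‖T δ - c‖) {ε : ℝ} (hε : 0 < ε) :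
    ∀ᶠ n in (hyperfilter ℕ : Filter ℕ), ‖f n δ - T δ‖ < ε := by
  have h3 : Tendsto (fun n => ⟪T δ - c, f n δ - c⟫_ℂ) (hyperfilter ℕ)
      (𝓝 ⟪T δ - c, T δ - c⟫_ℂ) := by
    have := (hT (T δ - c) δ).sub_const ⟪T δ - c, c⟫_ℂ
    simp only [← inner_sub_right] at this
    exact this
  have h4 : Tendsto (fun n => (⟪T δ - c, f n δ - c⟫_ℂ).re) (hyperfilter ℕ)
      (𝓝 (‖T δ - c‖ ^ 2)) := by
    have := (Complex.continuous_re.tendsto _).comp h3
    have e : (⟪T δ - c, T δ - c⟫_ℂ).re = ‖T δ - c‖ ^ 2 := by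
      rw [inner_self_eq_norm_sq_to_K]
      norm_cast
    rw [e] at this
    exact this
  have h5 : ∀ᶠ n in (hyperfilter ℕ : Filter ℕ), ‖T δ - c‖ ^ 2 - ε ^ 2 / 2 <
      (⟪T δ - c, f n δ - c⟫_ℂ).re := h4.eventually_const_lt (by
    have : 0 < ε ^ 2 := by positivity
    linarith)
  filter_upwards [h5] with n hn
  have h8 : ‖f n δ - T δ‖ ^ 2 = ‖f n δ - c‖ ^ 2 - 2 * (⟪T δ - c, f n δ - c⟫_ℂ).re +
      ‖T δ - c‖ ^ 2 := by
    have e : f n δ - T δ = (f n δ - c) - (T δ - c) := by abel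
    rw [e, @norm_sub_sq ℂ, inner_re_symm]
    rfl
  have h9 : ‖f n δ - c‖ ^ 2 ≤ ‖T δ - c‖ ^ 2 :=
    pow_le_pow_left₀ (norm_nonneg _) ((h1 n).trans h2) 2
  have h10 : ‖f n δ - T δ‖ ^ 2 < ε ^ 2 := by linarith
  exact lt_of_pow_lt_pow_left₀ 2 hε.le h10

/-- **Lemma F.** No injective sequence of elements of `C(K)` nearest to `p` has a limit `≠ p`. -/
theorem no_seq' (hnd : ∀ e, Cl φ Set.univ e → star e = e → e * e = e →
      ∃ ε > 0, ∀ S, Cl φ Set.univ S → S ≠ e → ε ≤ ‖S δ - e δ‖)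
    {P : (E →L[ℂ] E) → Prop} (hS : Std P δ) (hP : ∀ T, Cl φ Set.univ T → P T)
    {K : Subgroup (FreeGroup (Fin 2))} {p : E →L[ℂ] E}
    (hp1 : ∀ T, Cl φ K T → T * p = p) (hps : star p = p) {r : ℝ} (hr : 0 < r)
    (hmin : ∀ T, Cl φ K T → T ≠ p → r ≤ ‖T δ - p δ‖) {f : ℕ → E →L[ℂ] E}
    (hf : ∀ n, Cl φ K (f n)) (hinj : Function.Injective f) (hfr : ∀ n, ‖f n δ - p δ‖ ≤ r)
    {T : E →L[ℂ] E} (hTl : WT f (hyperfilter ℕ) T) (hTp : T ≠ p) : False := by
  have hun : ∀ {T : E →L[ℂ] E}, Cl φ K T → Cl φ Set.univ T := fun hT =>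
    hT.mono (Set.subset_univ _)
  have hT : Cl φ K T := Cl.lim hf hTl
  have hpT : ∀ S, Cl φ K S → p * S = p := by
    intro S hS
    have h2 := congrArg star (hp1 _ hS.adj)
    rwa [star_mul, star_star, hps] at h2
  have hTr : ‖T δ - p δ‖ = r := le_antisymm (wt_le hTl hr.le hfr) (hmin T hT hTp)
  set e : E →L[ℂ] E := star T * T with he
  have heC : Cl φ K e := hT.adj.mul hT
  have hTsub : ∀ S, Cl φ K S → ∀ v : E, S (v - p δ) = S v - p δ := by
    intro S hS v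
    rw [map_sub, ← mul_app, hp1 S hS]
  have heδ : e δ - p δ = (star T) (T δ - p δ) := by
    rw [hTsub _ hT.adj]; rfl
  -- `e ≠ p`
  have hep : e ≠ p := by
    intro h
    have h1 : (star T) (T δ - p δ) = 0 := by rw [← heδ, h, sub_self]
    have h2 : ⟪T δ - p δ, T δ - p δ⟫_ℂ = 0 := by
      have h3 : ⟪δ, (star T) (T δ - p δ)⟫_ℂ = 0 := by rw [h1, inner_zero_right]
      rw [inner_star', star_star] at h3
      have h4 : ⟪p δ, T δ - p δ⟫_ℂ = 0 := by
        have : ⟪p δ, T δ - p δ⟫_ℂ = ⟪δ, p (T δ) - p (p δ)⟫_ℂ := by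
          rw [← map_sub, inner_star' p, hps]
        rw [this, ← mul_app, hpT T hT]
        have h5 : p * p = p := by
          have h6 := hp1 e heC
          rw [h] at h6
          exact h6
        rw [← mul_app, h5, sub_self, inner_zero_right]
      rw [inner_sub_left, h3, h4, sub_self]
    rw [inner_self_eq_zero] at h2
    rw [h2, norm_zero] at hTr
    exact hr.ne hTr
  have hge : r ≤ ‖(star T) (T δ - p δ)‖ := by
    rw [← heδ]; exact hmin e heC hep
  have hTT : T ((star T) (T δ - p δ)) = T δ - p δ :=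
    eq_of_norm (fun x => hT.norm_le x) (by rw [hTr]; exact hge) (hT.adj.norm_le _)
  have hTTT : T * (star T * T) = T := by
    have hPT := hP T (hun hT)
    refine sep hS (hS.mul hPT (hS.mul (hS.star hPT) hPT)) hPT ?_
    have h1 : T ((star T) (T δ - p δ)) = T ((star T) (T δ)) - p δ := by
      rw [hTsub _ hT.adj, hTsub _ hT]
    rw [hTT] at h1
    have h2 : T δ = T ((star T) (T δ)) := sub_left_injective h1
    exact h2.symm
  have hes : star e = e := by rw [he, star_mul, star_star]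
  have hee : e * e = e := by
    rw [he, mul_assoc, hTTT]
  obtain ⟨ε, hε, hd⟩ := hnd e (hun heC) hes hee
  have hev := wt_conv hTl hfr hTr.ge hε
  have hev2 : ∀ᶠ n in (hyperfilter ℕ : Filter ℕ), f n = T := by
    filter_upwards [hev] with n hn
    have h1 : star T * f n = e := by
      by_contra hne
      have h2 := hd (star T * f n) (hun (hT.adj.mul (hf n))) hne
      have h3 : (star T * f n) δ - e δ = (star T) (f n δ - T δ) := by
        rw [map_sub]; rfl
      rw [h3] at h2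
      have h4 := hT.adj.norm_le (f n δ - T δ)
      linarith
    have h2 : T ((star T) (f n δ - p δ)) = T δ - p δ := by
      have h3 : (star T) (f n δ - p δ) = e δ - p δ := by
        rw [hTsub _ hT.adj, ← mul_app, h1]
      rw [h3, heδ, hTT]
    have h3 : ‖f n δ - p δ‖ ≤ ‖(star T) (f n δ - p δ)‖ := by
      refine (hfr n).trans ?_
      rw [← hTr, ← h2]
      exact hT.norm_le _
    have h4 := eq_of_norm (fun x => hT.norm_le x) h3 (hT.adj.norm_le _)
    rw [h2] at h4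
    exact (sep hS (hP _ (hun (hf n))) (hP _ (hun hT)) (sub_left_injective h4.symm))
  have h7 : {n | f n = T}.Finite := by
    apply Set.Subsingleton.finite
    intro a ha b hb
    exact hinj (ha.trans hb.symm)
  exact Filter.notMem_hyperfilter_of_finite h7 hev2

variable (hnd : ∀ e, Cl φ Set.univ e → star e = e → e * e = e →
      ∃ ε > 0, ∀ S, Cl φ Set.univ S → S ≠ e → ε ≤ ‖S δ - e δ‖)
variable {P : (E →L[ℂ] E) → Prop} (hS : Std P δ) (hP : ∀ T, Cl φ Set.univ T → P T)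
include hnd hS hP

/-- **(A)** -/
theorem stepA {K : Subgroup (FreeGroup (Fin 2))} (hK : NA K) :
    ∃ K₁ ≤ K, NA K₁ ∧ ∃ p, Cl φ K₁ p ∧ ∀ k ∈ K₁, U φ k * p = p := by
  classical
  set S : Set ℝ := {r | ∃ T, Cl φ K T ∧ ‖T δ‖ = r} with hSdef
  have hne : S.Nonempty := ⟨_, U φ 1, Cl.of K.one_mem, rfl⟩
  have hbd : BddBelow S := ⟨0, by rintro r ⟨T, -, rfl⟩; exact norm_nonneg _⟩
  set M := sInf S with hM
  have hMle : ∀ T, Cl φ K T → M ≤ ‖T δ‖ := fun T hT => csInf_le hbd ⟨T, hT, rfl⟩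
  obtain ⟨v, -, hv, hvS⟩ := exists_seq_tendsto_sInf hne hbd
  choose f hf hfv using hvS
  obtain ⟨T0, hT0, hT0l⟩ := Cl.exists_lim hf (hyperfilter ℕ)
  have hT0M : ‖T0 δ‖ = M := by
    apply le_antisymm _ (hMle T0 hT0)
    have h1 : Tendsto (fun n => ‖f n δ - 0‖) (hyperfilter ℕ) (𝓝 M) := by
      simp only [sub_zero, hfv]
      exact hv.mono_left Nat.hyperfilter_le_atTop
    have := wt_norm hT0l h1
    rwa [sub_zero] at this
  set Mn : Set (E →L[ℂ] E) := {T | Cl φ K T ∧ ‖T δ‖ = M} with hMn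
  have hP0 : P 0 := by
    have := hS.smul 0 hS.one
    rwa [zero_smul] at this
  have hM0 : 0 ≤ M := le_csInf hne (by rintro r ⟨T, -, rfl⟩; exact norm_nonneg _)
  have hfin : Mn.Finite := by
    rcases hM0.eq_or_lt with h0 | h0
    · refine (Set.finite_singleton (0 : E →L[ℂ] E)).subset ?_
      rintro T ⟨hT, hT2⟩
      rw [← h0, norm_eq_zero] at hT2
      exact sep hS (hP T (hT.mono (Set.subset_univ _))) hP0 hT2
    by_contra hinf
    let g := Set.Infinite.natEmbedding Mn hinf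
    obtain ⟨T, hT, hTl⟩ := Cl.exists_lim (f := fun n => (g n).1) (fun n => (g n).2.1)
      (hyperfilter ℕ)
    refine no_seq' hnd hS hP (K := K) (p := 0) (fun T _ => mul_zero T) (star_zero _) h0
      (fun T hT _ => ?_) (f := fun n => (g n).1) (fun n => (g n).2.1)
      (fun a b hab => g.injective (Subtype.ext hab)) (fun n => ?_) hTl ?_
    · show M ≤ ‖T δ - 0‖
      rw [sub_zero]; exact hMle T hT
    · show ‖(g n).1 δ - 0‖ ≤ M
      rw [sub_zero]; exact (g n).2.2.le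
    · rintro rfl
      have := hMle 0 hT
      rw [show (0 : E →L[ℂ] E) δ = 0 from rfl, norm_zero] at this
      exact absurd h0 (not_lt.2 this)
  have hmem : ∀ k ∈ K, ∀ T ∈ Mn, U φ k * T ∈ Mn := by
    rintro k hk T ⟨h1, h2⟩
    refine ⟨h1.mul_left hk, ?_⟩
    rw [mul_app, U_norm_apply, h2]
  let act : K → Equiv.Perm Mn := fun k =>
    { toFun := fun T => ⟨U φ k.1 * T.1, hmem _ k.2 _ T.2⟩
      invFun := fun T => ⟨U φ k.1⁻¹ * T.1, hmem _ (K.inv_mem k.2) _ T.2⟩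
      left_inv := fun T => Subtype.ext (by
        show U φ k.1⁻¹ * (U φ k.1 * T.1) = T.1
        rw [← mul_assoc, U_inv_mul, one_mul])
      right_inv := fun T => Subtype.ext (by
        show U φ k.1 * (U φ k.1⁻¹ * T.1) = T.1
        rw [← mul_assoc, U_mul_inv, one_mul]) }
  let π : K →* Equiv.Perm Mn :=
    { toFun := act
      map_one' := by
        ext T : 2
        show U φ 1 * T.1 = T.1
        rw [U_one, one_mul]
      map_mul' := fun a b => by
        ext T : 2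
        show U φ (a.1 * b.1) * T.1 = U φ a.1 * (U φ b.1 * T.1)
        rw [U_mul, mul_assoc] }
  have hπ : ∀ (k : K) (T : Mn), ((π k) T).1 = U φ k.1 * T.1 := fun _ _ => rfl
  haveI : Finite Mn := hfin
  let K₁ : Subgroup (FreeGroup (Fin 2)) := π.ker.map K.subtype
  have hK₁ : K₁ ≤ K := by
    rintro _ ⟨k, -, rfl⟩
    exact k.2
  have hfixM : ∀ k ∈ K₁, ∀ T ∈ Mn, U φ k * T = T := by
    rintro _ ⟨k, hk, rfl⟩ T hT
    have h1 : π k = 1 := hk
    have h2 := hπ k ⟨T, hT⟩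
    rw [h1] at h2
    exact h2.symm
  refine ⟨K₁, hK₁, hK.of_pow fun k hk => ?_, ?_⟩
  · obtain ⟨n, hn, hn1⟩ := (isOfFinOrder_of_finite (π ⟨k, hk⟩)).exists_pow_eq_one
    refine ⟨n, hn.ne', ⟨⟨k, hk⟩ ^ n, ?_, ?_⟩⟩
    · show π (⟨k, hk⟩ ^ n) = 1
      rw [map_pow, hn1]
    · simp
  · obtain ⟨u, hu, hul⟩ := hT0.ultra
    have hcov : (⋃ σ ∈ (Set.univ : Set (Equiv.Perm Mn)),
        {g : FreeGroup (Fin 2) | ∃ h : g ∈ K, π ⟨g, h⟩ = σ}) ∈ u := by
      refine mem_of_superset hu fun g hg => ?_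
      simp only [Set.mem_univ, Set.iUnion_true, Set.mem_iUnion]
      exact ⟨π ⟨g, hg⟩, hg, rfl⟩
    obtain ⟨σ, -, hσ⟩ := (Ultrafilter.finite_biUnion_mem_iff Set.finite_univ).1 hcov
    obtain ⟨k0, hk0, hk0σ⟩ := Ultrafilter.nonempty_of_mem hσ
    have hpM : U φ k0⁻¹ * T0 ∈ Mn := hmem _ (K.inv_mem hk0) _ ⟨hT0, hT0M⟩
    refine ⟨U φ k0⁻¹ * T0, ?_, fun k hk => hfixM k hk _ hpM⟩
    refine Cl.of_tendsto (l := (u : Filter _)) (k := fun g => k0⁻¹ * g) ?_ ?_
    · filter_upwards [hσ] with g hg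
      obtain ⟨hgK, hgσ⟩ := hg
      refine ⟨⟨k0, hk0⟩⁻¹ * ⟨g, hgK⟩, ?_, rfl⟩
      show π _ = 1
      rw [map_mul, map_inv, hgσ, hk0σ, inv_mul_cancel]
    · intro x y
      have := hul (U φ k0⁻¹⁻¹ x) y
      have e : ∀ z : E, ⟪U φ k0⁻¹⁻¹ x, z⟫_ℂ = ⟪x, U φ k0⁻¹ z⟫_ℂ := by
        intro z
        rw [inner_star', U_star]
      simp only [e] at this
      simp only [U_mul, mul_app]
      exact this

variable (hinj : ∀ w, U φ w = 1 → w = 1)
  (hA : ∀ K : Subgroup (FreeGroup (Fin 2)), NA K → ∀ x, P x → x δ ≠ 0 →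
    (∀ k ∈ K, cj φ k x = x) → (∀ k ∈ K, k ≠ 1 → ⟪x δ, U φ k (x δ)⟫_ℂ = 0) → False)
include hinj hA

/-- **(B)** -/
theorem stepB {K : Subgroup (FreeGroup (Fin 2))} (hK : NA K) {p : E →L[ℂ] E} (hp : Cl φ K p)
    (hf : ∀ k ∈ K, U φ k * p = p) :
    ∃ K' ≤ K, NA K' ∧ ∃ p', Cl φ K' p' ∧ (∀ k ∈ K', U φ k * p' = p') ∧ p' * p = p ∧ p' ≠ p := by
  classical
  have hPU : ∀ w, P (U φ w) := fun w => hP _ (Cl.of (Set.mem_univ _))
  have hun : ∀ {T : E →L[ℂ] E}, Cl φ K T → Cl φ Set.univ T := fun hT =>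
    hT.mono (Set.subset_univ _)
  have hPp : P p := hP p (hun hp)
  have hps : star p = p := proj_star hp hf
  have hpp : p * p = p := proj_left hp hf hp
  have h1p : (1 : E →L[ℂ] E) ≠ p := by
    intro e
    obtain ⟨a, ha, b, hb, hab⟩ := hK
    apply (na_ne hab).1
    apply hinj
    have := hf a ha
    rwa [← e, mul_one] at this
  -- the distances to `p`
  set D : Set ℝ := {r | ∃ T, Cl φ K T ∧ T ≠ p ∧ ‖T δ - p δ‖ = r} with hDdef
  have hne : D.Nonempty := ⟨_, 1, by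
    have := Cl.of (φ := φ) K.one_mem
    rwa [U_one] at this, h1p, rfl⟩
  have hbd : BddBelow D := ⟨0, by rintro r ⟨T, -, -, rfl⟩; exact norm_nonneg _⟩
  set r := sInf D with hr
  have hrle : ∀ T, Cl φ K T → T ≠ p → r ≤ ‖T δ - p δ‖ := fun T hT hTp =>
    csInf_le hbd ⟨T, hT, hTp, rfl⟩
  have hr0 : 0 < r := by
    obtain ⟨ε, hε, h⟩ := hnd p (hun hp) hps hpp
    refine hε.trans_le (le_csInf hne ?_)
    rintro _ ⟨T, hT, hTp, rfl⟩
    exact h T (hun hT) hTp
  -- `⟨δ, (T* T - p) δ⟩ = ‖(T - p) δ‖²`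
  have hsq : ∀ T, Cl φ K T → (⟪δ, (star T * T) δ - p δ⟫_ℂ).re = ‖T δ - p δ‖ ^ 2 := by
    intro T hT
    have e1 : (star (T - p)) * (T - p) = star T * T - p := by
      rw [star_sub, hps, mul_sub, sub_mul, sub_mul, proj_left hp hf hT.adj,
        proj_right hp hf hT, hpp]
      abel
    have e2 : (star T * T) δ - p δ = ((star (T - p)) * (T - p)) δ := by
      rw [e1]; rfl
    rw [e2, mul_app, ← inner_star]
    have e3 : (T - p) δ = T δ - p δ := rfl
    rw [e3, inner_self_eq_norm_sq_to_K]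
    norm_cast
  obtain ⟨v, -, hv, hvD⟩ := exists_seq_tendsto_sInf hne hbd
  choose f hfC hfp hfv using hvD
  have hgC : ∀ n, Cl φ K (star (f n) * f n) := fun n => (hfC n).adj.mul (hfC n)
  obtain ⟨y, hy, hyl⟩ := Cl.exists_lim hgC (hyperfilter ℕ)
  have hy1 : r ^ 2 ≤ (⟪δ, y δ - p δ⟫_ℂ).re := by
    have h1 := (hyl δ δ).sub_const ⟪δ, p δ⟫_ℂ
    simp only [← inner_sub_right] at h1
    have h2 := (Complex.continuous_re.tendsto _).comp h1
    refine ge_of_tendsto h2 (Eventually.of_forall fun n => ?_)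
    show r ^ 2 ≤ (⟪δ, (star (f n) * f n) δ - p δ⟫_ℂ).re
    rw [hsq _ (hfC n)]
    exact pow_le_pow_left₀ hr0.le (hrle _ (hfC n) (hfp n)) 2
  have key : ∀ T : E →L[ℂ] E, r ^ 2 ≤ (⟪δ, T δ - p δ⟫_ℂ).re → T ≠ p := by
    rintro T hT rfl
    rw [sub_self, inner_zero_right] at hT
    have : 0 < r ^ 2 := by positivity
    simp only [Complex.zero_re] at hT
    linarith
  have hyp : y ≠ p := key y hy1
  have hy2 : ‖y δ - p δ‖ ≤ r := by
    have hub : ∀ n, ‖(star (f n) * f n) δ - p δ‖ ≤ v n := by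
      intro n
      have e : (star (f n) * f n) δ - p δ = (star (f n)) (f n δ - p δ) := by
        rw [map_sub, mul_app]
        congr 1
        rw [← mul_app, proj_left hp hf (hfC n).adj]
      rw [e, ← hfv n]
      exact (hfC n).adj.norm_le _
    have h3 : Tendsto (fun n => ⟪y δ - p δ, (star (f n) * f n) δ - p δ⟫_ℂ) (hyperfilter ℕ)
        (𝓝 ⟪y δ - p δ, y δ - p δ⟫_ℂ) := by
      have := (hyl (y δ - p δ) δ).sub_const ⟪y δ - p δ, p δ⟫_ℂ
      simp only [← inner_sub_right] at this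
      exact this
    have hv' : Tendsto v (hyperfilter ℕ) (𝓝 r) := hv.mono_left Nat.hyperfilter_le_atTop
    have h4 : ‖⟪y δ - p δ, y δ - p δ⟫_ℂ‖ ≤ ‖y δ - p δ‖ * r :=
      le_of_tendsto_of_tendsto h3.norm (hv'.const_mul _)
        (Eventually.of_forall fun n => (norm_inner_le_norm _ _).trans
          (mul_le_mul_of_nonneg_left (hub n) (norm_nonneg _)))
    rw [inner_self_eq_norm_sq_to_K] at h4
    have e : ‖((‖y δ - p δ‖ : ℂ)) ^ 2‖ = ‖y δ - p δ‖ * ‖y δ - p δ‖ := by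
      rw [norm_pow, Complex.norm_real, norm_norm, sq]
    have h5 : ‖y δ - p δ‖ * ‖y δ - p δ‖ ≤ ‖y δ - p δ‖ * r := by
      rw [← e]; exact h4
    rcases (norm_nonneg (y δ - p δ)).eq_or_lt with h6 | h6
    · rw [← h6]; exact hr0.le
    · exact le_of_mul_le_mul_left h5 h6
  have hyr : ‖y δ - p δ‖ = r := le_antisymm hy2 (hrle y hy hyp)
  -- the finite set
  set F : Set (E →L[ℂ] E) := {T | Cl φ K T ∧ ‖T δ - p δ‖ = r ∧ r ^ 2 ≤ (⟪δ, T δ - p δ⟫_ℂ).re}
    with hF
  have hFfin : F.Finite := by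
    by_contra hinf
    let g := Set.Infinite.natEmbedding F hinf
    obtain ⟨T, hT, hTl⟩ := Cl.exists_lim (f := fun n => (g n).1) (fun n => (g n).2.1)
      (hyperfilter ℕ)
    refine no_seq' hnd hS hP (K := K) (p := p) (fun T hT => proj_left hp hf hT) hps hr0 hrle
      (f := fun n => (g n).1) (fun n => (g n).2.1)
      (fun a b hab => g.injective (Subtype.ext hab)) (fun n => (g n).2.2.1.le) hTl ?_
    apply key
    have h1 := (hTl δ δ).sub_const ⟪δ, p δ⟫_ℂ
    simp only [← inner_sub_right] at h1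
    have h2 := (Complex.continuous_re.tendsto _).comp h1
    exact ge_of_tendsto h2 (Eventually.of_forall fun n => (g n).2.2.2)
  have hPT : ∀ T, Cl φ K T → P (T - p) := fun T hT => hS.sub (hP T (hun hT)) hPp
  have hcjF : ∀ k ∈ K, ∀ T ∈ F, cj φ k T ∈ F := by
    rintro k hk T ⟨h1, h2, h3⟩
    have e : cj φ k T δ - p δ = cj φ k (T - p) δ := by
      rw [cj_sub, proj_cj hp hf hk]; rfl
    refine ⟨h1.cj hk, ?_, ?_⟩
    · rw [e, norm_cj φ hS hPU k (hPT T h1)]
      exact h2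
    · rw [e, tau_cj φ hS hPU k (hPT T h1)]
      exact h3
  have hyF : y ∈ F := ⟨hy, hyr, hy1⟩
  -- the stabiliser of `y`
  let K₂ : Subgroup (FreeGroup (Fin 2)) :=
    { carrier := {k | k ∈ K ∧ cj φ k y = y}
      one_mem' := ⟨K.one_mem, by unfold cj; rw [inv_one, U_one, one_mul, mul_one]⟩
      mul_mem' := by
        rintro a b ⟨ha, ha'⟩ ⟨hb, hb'⟩
        exact ⟨K.mul_mem ha hb, by rw [← cj_cj, hb', ha']⟩
      inv_mem' := by
        rintro a ⟨ha, ha'⟩
        refine ⟨K.inv_mem ha, ?_⟩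
        conv_lhs => rw [← ha']
        rw [cj_cj, inv_mul_cancel]
        unfold cj
        rw [inv_one, U_one, one_mul, mul_one] }
  have hK₂ : ∀ {k}, k ∈ K₂ ↔ k ∈ K ∧ cj φ k y = y := Iff.rfl
  have hK₂NA : NA K₂ := by
    refine hK.of_pow fun k hk => ?_
    haveI : Finite F := hFfin
    obtain ⟨i, j, hij, he⟩ := Finite.exists_ne_map_eq_of_infinite
      (fun n : ℕ => (⟨cj φ (k ^ n) y, hcjF _ (K.pow_mem hk n) y hyF⟩ : F))
    have he' : cj φ (k ^ i) y = cj φ (k ^ j) y := congrArg Subtype.val he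
    wlog hlt : i < j generalizing i j
    · exact this j i hij.symm he.symm he'.symm (by omega)
    refine ⟨j - i, by omega, hK₂.2 ⟨K.pow_mem hk _, ?_⟩⟩
    have e1 : k ^ j = k ^ i * k ^ (j - i) := by rw [← pow_add]; congr 1; omega
    rw [e1, ← cj_cj] at he'
    have h2 := congrArg (cj φ (k ^ i)⁻¹) he'
    rw [cj_cj, cj_cj, inv_mul_cancel] at h2
    have e0 : ∀ B : E →L[ℂ] E, cj φ 1 B = B := by
      intro B; unfold cj; rw [inv_one, U_one, one_mul, mul_one]
    rw [e0, e0] at h2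
    exact h2.symm
  let K' : Subgroup (FreeGroup (Fin 2)) :=
    { carrier := {k | k ∈ K₂ ∧ U φ k * y = y}
      one_mem' := ⟨K₂.one_mem, by rw [U_one, one_mul]⟩
      mul_mem' := by
        rintro a b ⟨ha, ha'⟩ ⟨hb, hb'⟩
        exact ⟨K₂.mul_mem ha hb, by rw [U_mul, mul_assoc, hb', ha']⟩
      inv_mem' := by
        rintro a ⟨ha, ha'⟩
        refine ⟨K₂.inv_mem ha, ?_⟩
        conv_lhs => rw [← ha', ← mul_assoc, U_inv_mul, one_mul] }
  have hK'mem : ∀ {k}, k ∈ K' ↔ k ∈ K₂ ∧ U φ k * y = y := Iff.rfl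
  by_cases htriv : ∃ c ∈ K', c ≠ 1
  · obtain ⟨c, hc, hc1⟩ := htriv
    have hNA : NA K' := hK₂NA.normal hc1 hc fun d hd => by
      refine hK'mem.2 ⟨K₂.mul_mem (K₂.mul_mem hd (hK'mem.1 hc).1) (K₂.inv_mem hd), ?_⟩
      have h1 : U φ d * y * U φ d⁻¹ = y := (hK₂.1 hd).2
      have h2 : U φ d⁻¹ * y = y * U φ d⁻¹ := by
        calc U φ d⁻¹ * y = U φ d⁻¹ * (U φ d * y * U φ d⁻¹) := by rw [h1]
          _ = (U φ d⁻¹ * U φ d) * (y * U φ d⁻¹) := by simp only [mul_assoc]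
          _ = _ := by rw [U_inv_mul, one_mul]
      calc U φ (d * c * d⁻¹) * y = U φ d * U φ c * (U φ d⁻¹ * y) := by
            rw [U_mul, U_mul, mul_assoc]
        _ = U φ d * (U φ c * y) * U φ d⁻¹ := by rw [h2]; simp only [mul_assoc]
        _ = y := by rw [(hK'mem.1 hc).2, h1]
    obtain ⟨K'', hK'', hNA'', p'', hp'', hfix''⟩ := stepA hnd hS hP hNA
    have hle : K'' ≤ K := fun k hk => (hK₂.1 (hK'mem.1 (hK'' hk)).1).1
    refine ⟨K'', hle, hNA'', p'', hp'', hfix'', ?_, ?_⟩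
    · exact hp''.fix fun k hk => hf k (hle hk)
    · intro e
      have h1 : p'' * y = y := hp''.fix fun k hk => (hK'mem.1 (hK'' hk)).2
      rw [e, proj_right hp hf hy] at h1
      exact hyp h1.symm
  · exfalso
    push Not at htriv
    have hx : P (y - p) := hPT y hy
    have hcj : ∀ k ∈ K₂, cj φ k (y - p) = y - p := by
      intro k hk
      rw [cj_sub, (hK₂.1 hk).2, proj_cj hp hf (hK₂.1 hk).1]
    have hxδ : (y - p) δ = y δ - p δ := rfl
    refine hA K₂ hK₂NA (y - p) hx ?_ hcj ?_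
    · intro h0
      rw [hxδ] at h0
      rw [h0, norm_zero] at hyr
      exact hr0.ne hyr
    · intro k0 hk0 hk01
      by_contra hψ
      obtain ⟨h, hh, hnc⟩ := hK₂NA.exists_not hk01
      set kn : ℕ → FreeGroup (Fin 2) := fun n => h ^ n * k0 * (h ^ n)⁻¹ with hkn
      have hknK : ∀ n, kn n ∈ K₂ := fun n =>
        K₂.mul_mem (K₂.mul_mem (K₂.pow_mem hh n) hk0) (K₂.inv_mem (K₂.pow_mem hh n))
      have hknc : ∀ n, ⟪(y - p) δ, U φ (kn n) ((y - p) δ)⟫_ℂ = ⟪(y - p) δ, U φ k0 ((y - p) δ)⟫_ℂ := by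
        intro n
        have e1 : cj φ (h ^ n) (star (y - p) * (U φ k0 * (y - p))) =
            star (y - p) * (U φ (kn n) * (y - p)) := by
          rw [cj_mul, cj_mul, ← cj_star, hcj _ (K₂.pow_mem hh n), cj_U]
        have e2 := tau_cj φ hS hPU (h ^ n) (hS.mul (hS.star hx) (hS.mul (hPU k0) hx))
        rw [e1] at e2
        simpa only [mul_app, inner_star', star_star] using e2
      have hinjk : ∀ n m, U φ (kn n) * y = U φ (kn m) * y → n = m := by
        intro n m he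
        have h1 : (kn m)⁻¹ * kn n = 1 := by
          apply htriv
          refine hK'mem.2 ⟨K₂.mul_mem (K₂.inv_mem (hknK m)) (hknK n), ?_⟩
          rw [U_mul, mul_assoc, he, ← mul_assoc, U_inv_mul, one_mul]
        have h2 : kn n = kn m := (inv_mul_eq_one.1 h1).symm
        by_contra hnm
        wlog hlt : m < n generalizing n m
        · exact this m n he.symm (by rw [h2, inv_mul_cancel]) h2.symm (Ne.symm hnm) (by omega)
        apply hnc
        have h3 : Commute (h ^ (n - m)) k0 := by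
          have e1 : h ^ n = h ^ m * h ^ (n - m) := by rw [← pow_add]; congr 1; omega
          simp only [hkn] at h2
          rw [e1] at h2
          show h ^ (n - m) * k0 = k0 * h ^ (n - m)
          have h4 := congrArg (fun z => (h ^ m)⁻¹ * z * (h ^ m) * h ^ (n - m)) h2
          calc h ^ (n - m) * k0 = (h ^ m)⁻¹ * (h ^ m * h ^ (n - m) * k0 *
              (h ^ m * h ^ (n - m))⁻¹) * (h ^ m) * h ^ (n - m) := by group
            _ = (h ^ m)⁻¹ * (h ^ m * k0 * (h ^ m)⁻¹) * (h ^ m) * h ^ (n - m) := h4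
            _ = k0 * h ^ (n - m) := by group
        exact (comm_of_pow (by omega) h3).symm
      have hfC' : ∀ n, Cl φ K (U φ (kn n) * y) := fun n => hy.mul_left (hK₂.1 (hknK n)).1
      obtain ⟨T, hT, hTl⟩ := Cl.exists_lim hfC' (hyperfilter ℕ)
      have hev : ∀ n, (U φ (kn n) * y) δ - p δ = U φ (kn n) ((y - p) δ) := by
        intro n
        rw [hxδ, map_sub, ← mul_app, ← mul_app, hf _ (hK₂.1 (hknK n)).1]
      refine no_seq' hnd hS hP (K := K) (p := p) (fun T hT => proj_left hp hf hT) hps hr0 hrle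
        (f := fun n => U φ (kn n) * y) hfC' (fun a b hab => hinjk a b hab) (fun n => ?_) hTl ?_
      · show ‖(U φ (kn n) * y) δ - p δ‖ ≤ r
        rw [hev, U_norm_apply, hxδ, hyr]
      · rintro rfl
        apply hψ
        have h1 := (hTl ((y - T) δ) δ).sub_const ⟪(y - T) δ, T δ⟫_ℂ
        simp only [← inner_sub_right] at h1
        rw [sub_self, inner_zero_right] at h1
        have h2 : ∀ n, ⟪(y - T) δ, (U φ (kn n) * y) δ - T δ⟫_ℂ =
            ⟪(y - T) δ, U φ k0 ((y - T) δ)⟫_ℂ := by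
          intro n
          rw [hev, hknc]
        simp only [h2] at h1
        exact tendsto_nhds_unique tendsto_const_nhds h1

/-- **(D)** -/
theorem main_false : False := by
  classical
  let X := {q : Subgroup (FreeGroup (Fin 2)) × (E →L[ℂ] E) //
    NA q.1 ∧ Cl φ q.1 q.2 ∧ ∀ k ∈ q.1, U φ k * q.2 = q.2}
  have hnext : ∀ q : X, ∃ q' : X, q'.1.1 ≤ q.1.1 ∧ q'.1.2 * q.1.2 = q.1.2 ∧ q'.1.2 ≠ q.1.2 := by
    rintro ⟨⟨K, p⟩, hK, hp, hf⟩
    obtain ⟨K', hle, hNA, p', hp', hf', h1, h2⟩ := stepB hnd hS hP hinj hA hK hp hf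
    exact ⟨⟨⟨K', p'⟩, hNA, hp', hf'⟩, hle, h1, h2⟩
  choose nx hnx1 hnx2 hnx3 using hnext
  obtain ⟨K0, -, hK0, p0, hp0, hf0⟩ := stepA hnd hS hP na_top
  let s : ℕ → X := fun n => nx^[n] ⟨⟨K0, p0⟩, hK0, hp0, hf0⟩
  have hs : ∀ n, s (n + 1) = nx (s n) := fun n => Function.iterate_succ_apply' nx n _
  set p : ℕ → E →L[ℂ] E := fun n => (s n).1.2 with hpdef
  have hpC : ∀ n, Cl φ (s n).1.1 (p n) := fun n => (s n).2.2.1
  have hpf : ∀ n, ∀ k ∈ (s n).1.1, U φ k * p n = p n := fun n => (s n).2.2.2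
  have hstar : ∀ n, star (p n) = p n := fun n => proj_star (hpC n) (hpf n)
  have hmul1 : ∀ n, p (n + 1) * p n = p n := by
    intro n
    show (s (n + 1)).1.2 * _ = _
    rw [hs]
    exact hnx2 (s n)
  have hne1 : ∀ n, p (n + 1) ≠ p n := by
    intro n
    show (s (n + 1)).1.2 ≠ _
    rw [hs]
    exact hnx3 (s n)
  have hmul : ∀ m d, p (m + d) * p m = p m := by
    intro m d
    induction d with
    | zero => exact proj_left (hpC m) (hpf m) (hpC m)
    | succ d ih =>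
      calc p (m + (d + 1)) * p m = p (m + d + 1) * (p (m + d) * p m) := by rw [ih]; rfl
        _ = (p (m + d + 1) * p (m + d)) * p m := by rw [mul_assoc]
        _ = p m := by rw [hmul1, ih]
  have hmul' : ∀ m d, p m * p (m + d) = p m := by
    intro m d
    have := congrArg star (hmul m d)
    rwa [star_mul, hstar, hstar] at this
  have hinj' : Function.Injective p := by
    intro a b hab
    by_contra hne
    wlog hlt : a < b generalizing a b
    · exact this hab.symm (Ne.symm hne) (by omega)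
    obtain ⟨d, rfl⟩ : ∃ d, b = a + 1 + d := ⟨b - (a + 1), by omega⟩
    apply hne1 a
    have h1 := hmul (a + 1) d
    rw [← hab] at h1
    have h2 := hmul' a 1
    rw [h1] at h2
    exact h2
  have hun : ∀ n, Cl φ Set.univ (p n) := fun n => (hpC n).mono (Set.subset_univ _)
  obtain ⟨T, hT, hTl⟩ := Cl.exists_lim hun (hyperfilter ℕ)
  have e : ∀ n, p n * T = p n := by
    intro n
    refine op_ext fun x y => ?_
    have h1 := hTl (p n x) y
    have h2 : ∀ z : E, ⟪p n x, z⟫_ℂ = ⟪x, p n z⟫_ℂ := by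
      intro z
      rw [inner_star', hstar]
    simp only [h2] at h1
    have h3 : Tendsto (fun i => ⟪x, p n (p i y)⟫_ℂ) (hyperfilter ℕ) (𝓝 ⟪x, p n y⟫_ℂ) := by
      refine tendsto_const_nhds.congr' ?_
      have h4 : ∀ᶠ i in (hyperfilter ℕ : Filter ℕ), n ≤ i :=
        Nat.hyperfilter_le_atTop (eventually_ge_atTop n)
      filter_upwards [h4] with i hi
      obtain ⟨d, rfl⟩ := Nat.exists_eq_add_of_le hi
      rw [← mul_app, hmul']
    exact tendsto_nhds_unique h1 h3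
  have hle : ∀ n, ‖p n δ - 0‖ ≤ ‖T δ‖ := by
    intro n
    rw [sub_zero]
    calc ‖p n δ‖ = ‖(p n * T) δ‖ := by rw [e]
      _ = ‖p n (T δ)‖ := rfl
      _ ≤ ‖T δ‖ := (hpC n).norm_le _
  have hTs : star T = T := by
    refine op_ext fun x y => ?_
    rw [← inner_star]
    have h1 := (continuous_star.tendsto _).comp (hTl y x)
    have h2 := hTl x y
    have h3 : ∀ n, star ⟪y, p n x⟫_ℂ = ⟪x, p n y⟫_ℂ := by
      intro n
      rw [inner_star', hstar]
      exact inner_conj_symm _ _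
    have h4 : star ⟪y, T x⟫_ℂ = ⟪T x, y⟫_ℂ := inner_conj_symm _ _
    rw [← h4]
    refine tendsto_nhds_unique h1 (h2.congr fun n => ?_)
    exact (h3 n).symm
  have hTT : T * T = T := by
    refine op_ext fun x y => ?_
    refine tendsto_nhds_unique (hTl x (T y)) ((hTl x y).congr fun n => ?_)
    rw [← mul_app, e]
  obtain ⟨ε, hε, hd⟩ := hnd T hT hTs hTT
  have hev := wt_conv hTl hle (by rw [sub_zero]) hε
  have hev2 : ∀ᶠ n in (hyperfilter ℕ : Filter ℕ), p n = T := by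
    filter_upwards [hev] with n hn
    by_contra hne
    exact absurd hn (not_lt.2 (hd (p n) (hun n) hne))
  have h7 : {n | p n = T}.Finite := by
    apply Set.Subsingleton.finite
    intro a ha b hb
    exact hinj' (ha.trans hb.symm)
  exact Filter.notMem_hyperfilter_of_finite h7 hev2

end

end Pool.Agent.Helper25.WC.Pr
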