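import Mathlib
import Pool.Agent.Helper25.WC.Core

/-!
Theorem W for `L(G)`, `G` locally finite, from AMEN.
-/

set_option autoImplicit false

namespace Pool.Agent.Helper25.WC

open scoped InnerProductSpace ComplexConjugate
open Filter Topology
open Pool.Agent.Helper9.UGap

noncomputable section

universe u

variable {G : Type u} [Group G] [DecidableEq G]

omit [Group G] in
theorem single_inner (h : G) (f : lp (fun _ : G => ℂ) 2) :
    ⟪(lp.single 2 h (1 : ℂ) : lp (fun _ : G => ℂ) 2), f⟫_ℂ = f h := by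
  rw [lp.inner_single_left]
  simp

theorem InL_of_Cl {φ : FreeGroup (Fin 2) →*
      ↥(unitary (lp (fun _ : G => ℂ) 2 →L[ℂ] lp (fun _ : G => ℂ) 2))}
    (hL : ∀ w, InL (U φ w)) {T : lp (fun _ : G => ℂ) 2 →L[ℂ] lp (fun _ : G => ℂ) 2}
    (hT : Cl φ Set.univ T) : InL T := by
  intro g f f' hff h
  obtain ⟨v, -, hv⟩ := hT.ultra
  have h1 := hv (lp.single 2 h (1 : ℂ)) f'
  have h2 := hv (lp.single 2 (h * g) (1 : ℂ)) f
  simp only [single_inner] at h1 h2
  have h3 : ∀ k, (U φ k f') h = (U φ k f) (h * g) := fun k => hL k g f f' hff h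
  simp only [h3] at h1
  exact tendsto_nhds_unique h1 h2

theorem main (amen : AMEN.{u}) (φ : FreeGroup (Fin 2) →*
      ↥(unitary (lp (fun _ : G => ℂ) 2 →L[ℂ] lp (fun _ : G => ℂ) 2)))
    (hG : ∀ A : Finset G, ∃ Q : Subgroup G, Finite Q ∧ ∀ a ∈ A, a ∈ Q)
    (hL : ∀ w, InL (U φ w)) (hinj : ∀ w, U φ w = 1 → w = 1) :
    ∃ T, Cl φ Set.univ T ∧ ∀ ε : ℝ, 0 < ε → ∃ S, Cl φ Set.univ S ∧ S ≠ T ∧
      ‖S (dl : lp (fun _ : G => ℂ) 2) - T dl‖ < ε := by
  by_contra hcon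
  push Not at hcon
  have hnd : ∀ T, Cl φ Set.univ T → ∃ ε > 0, ∀ S, Cl φ Set.univ S → S ≠ T →
      ε ≤ ‖S (dl : lp (fun _ : G => ℂ) 2) - T dl‖ := fun T hT => hcon T hT
  have hP : ∀ T, Cl φ Set.univ T → InL T ∧ InL (star T) := by
    intro T hT
    refine ⟨InL_of_Cl hL hT, Pool.Agent.Helper49.DW.Op.InL_star (InL_of_Cl hL hT)⟩
  exact main_false hnd (std_LG (G := G)) hP hinj
    (fun K hK x hx hx0 hc ho => amen G φ hG hL K hK x hx.1 hx0 hc ho)

end

end Pool.Agent.Helper25.WC
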