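import Mathlib
import Pool.Agent.Helper25.WC.Main

/-!
The definitions of the statement, and the reduction of the statement to AMEN.
-/

namespace Pool.Agent.Helper25.WC.Fin

open scoped InnerProductSpace
open Filter Topology

/-- the free group on two generators -/
abbrev F2 := FreeGroup (Fin 2)

/-- the Hilbert space `ℓ²(G)` -/
abbrev Ell (G : Type*) : Type _ := lp (fun _ : G => ℂ) 2

/-- the bounded operators on `ℓ²(G)` -/
abbrev Op (G : Type*) : Type _ := Ell G →L[ℂ] Ell G

/-- `f'` is the right translate `h ↦ f(hg)` of `f` -/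
def IsTranslate {G : Type*} [Group G] (g : G) (f f' : Ell G) : Prop :=
  ∀ h : G, f' h = f (h * g)

/-- the operator `T` lies in the group von Neumann algebra `L(G)`: it commutes with the right
translations of `ℓ²(G)` -/
def InL {G : Type*} [Group G] (T : Op G) : Prop :=
  ∀ (g : G) (f f' : Ell G), IsTranslate g f f' → IsTranslate g (T f) (T f')

/-- `δ` is the vector `δ₁` of `ℓ²(G)` -/
def IsDelta {G : Type*} [Group G] (δ : Ell G) : Prop :=
  δ 1 = 1 ∧ ∀ g : G, g ≠ 1 → δ g = 0

/-- `G` is locally finite: each finite subset lies in a finite subgroup -/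
def LocallyFinite (G : Type*) [Group G] : Prop :=
  ∀ A : Finset G, ∃ Q : Subgroup G, Finite Q ∧ ∀ a ∈ A, a ∈ Q

/-- `U` is a homomorphism of the free group into the unitary group of `L(G)` -/
def IsUnitaryRep {G : Type*} [Group G] (U : F2 → Op G) : Prop :=
  (∀ x, U 1 x = x) ∧ (∀ a b x, U (a * b) x = U a (U b x)) ∧ (∀ a x, ‖U a x‖ = ‖x‖) ∧
    ∀ a, InL (U a)

/-- `T` lies in the closure of the set of the operators `U(w)` in the weak operator topology -/
def InWeakClosure {G : Type*} (U : F2 → Op G) (T : Op G) : Prop :=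
  ∀ (X : Finset (Ell G)) (ε : ℝ), 0 < ε → ∃ w, ∀ x ∈ X, ∀ y ∈ X, ‖⟪x, U w y - T y⟫_ℂ‖ < ε

theorem cl_iff {G : Type*} {φ : FreeGroup (Fin 2) →* ↥(unitary (Op G))} {T : Op G} :
    Cl φ Set.univ T ↔ InWeakClosure (fun w => Pool.Agent.Helper9.UGap.U φ w) T := by
  constructor
  · intro hT X ε hε
    obtain ⟨u, -, hu⟩ := hT.ultra
    have h1 : ∀ᶠ w in (u : Filter F2), ∀ x ∈ X, ∀ y ∈ X,
        ‖⟪x, Pool.Agent.Helper9.UGap.U φ w y - T y⟫_ℂ‖ < ε := by
      rw [Filter.eventually_all_finset]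
      intro x _
      rw [Filter.eventually_all_finset]
      intro y _
      have h2 := (hu x y).sub_const ⟪x, T y⟫_ℂ
      simp only [← inner_sub_right, sub_self, inner_zero_right] at h2
      have h3 := h2.norm
      rw [norm_zero] at h3
      exact h3.eventually_lt_const hε
    exact h1.exists
  · intro hT
    have h1 : ∀ q : Finset (Ell G) × ℕ, ∃ w, ∀ x ∈ q.1, ∀ y ∈ q.1,
        ‖⟪x, Pool.Agent.Helper9.UGap.U φ w y - T y⟫_ℂ‖ < 1 / ((q.2 : ℝ) + 1) :=
      fun q => hT q.1 _ (by positivity)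
    choose w hw using h1
    classical
    refine Cl.of_tendsto (l := (atTop : Filter (Finset (Ell G) × ℕ))) (k := w)
      (Eventually.of_forall fun _ => Set.mem_univ _) ?_
    intro x y
    rw [tendsto_iff_norm_sub_tendsto_zero, Metric.tendsto_atTop]
    intro ε hε
    obtain ⟨n, hn⟩ := exists_nat_one_div_lt hε
    refine ⟨({x, y}, n), fun q hq => ?_⟩
    have hx : x ∈ q.1 := hq.1 (by simp)
    have hy : y ∈ q.1 := hq.1 (by simp)
    have h2 := hw q x hx y hy
    rw [Real.dist_eq, sub_zero, abs_of_nonneg (norm_nonneg _), ← inner_sub_right]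
    refine h2.trans_le (le_trans ?_ hn.le)
    apply one_div_le_one_div_of_le (by positivity)
    have : (n : ℝ) ≤ q.2 := by exact_mod_cast hq.2
    linarith

universe u

theorem red (amen : AMEN.{u}) {G : Type u} [Group G] (hG : LocallyFinite G) (U : F2 → Op G)
    (hU : IsUnitaryRep U) (hinj : ∀ w, U w = 1 → w = 1) (δ : Ell G) (hδ : IsDelta δ) :
    ∃ T, InWeakClosure U T ∧
      ∀ ε : ℝ, 0 < ε → ∃ S, InWeakClosure U S ∧ S ≠ T ∧ ‖S δ - T δ‖ < ε := by
  classical
  obtain ⟨h1, h2, h3, hL⟩ := hU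
  have hone : U 1 = 1 := ContinuousLinearMap.ext h1
  have hmul : ∀ a b, U (a * b) = U a * U b := fun a b => ContinuousLinearMap.ext (h2 a b)
  have hss : ∀ a, star (U a) * U a = 1 := fun a =>
    (ContinuousLinearMap.norm_map_iff_adjoint_comp_self (U a)).1 (h3 a)
  have hinv : ∀ a, U a * U a⁻¹ = 1 := fun a => by rw [← hmul, mul_inv_cancel, hone]
  have hst : ∀ a, star (U a) = U a⁻¹ := fun a => by
    calc star (U a) = star (U a) * (U a * U a⁻¹) := by rw [hinv, mul_one]
      _ = U a⁻¹ := by rw [← mul_assoc, hss, one_mul]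
  obtain ⟨φ, hφ⟩ : ∃ φ : FreeGroup (Fin 2) →* ↥(unitary (Op G)),
      ∀ w, Pool.Agent.Helper9.UGap.U φ w = U w :=
    ⟨{ toFun := fun a => ⟨U a, by
        rw [Unitary.mem_iff]
        exact ⟨hss a, by rw [hst, hinv]⟩⟩
       map_one' := Subtype.ext hone
       map_mul' := fun a b => Subtype.ext (hmul a b) }, fun w => rfl⟩
  have e : δ = Helper9.UGap.dl := by
    ext g
    unfold Helper9.UGap.dl
    rw [lp.single_apply]
    by_cases hg : g = 1
    · subst hg; rw [hδ.1]; simp
    · rw [hδ.2 g hg, Pi.single_eq_of_ne hg]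
  have hUφ : (fun w => Pool.Agent.Helper9.UGap.U φ w) = U := funext hφ
  have hLφ : ∀ w, Pool.Agent.Helper9.UGap.InL (Pool.Agent.Helper9.UGap.U φ w) := by
    intro w
    rw [hφ w]
    exact hL w
  have hiφ : ∀ w, Pool.Agent.Helper9.UGap.U φ w = 1 → w = 1 := by
    intro w hw
    rw [hφ w] at hw
    exact hinj w hw
  obtain ⟨T, hT, h⟩ := Pool.Agent.Helper25.WC.main amen φ hG hLφ hiφ
  have hcl : ∀ T, Cl φ Set.univ T → InWeakClosure U T := by
    intro T hT
    rw [← hUφ]
    exact cl_iff.1 hT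
  refine ⟨T, hcl T hT, fun ε hε => ?_⟩
  obtain ⟨S, hS, hne, hlt⟩ := h ε hε
  rw [e]
  exact ⟨S, hcl S hS, hne, hlt⟩

end Pool.Agent.Helper25.WC.Fin
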