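import Mathlib
import Pool.Agent.Helper25.WC.Main
import Pool.Agent.Helper25.WC.Core2

/-!
Theorem W, with an accumulation point which is a projection, for `L(G)`, `G` locally finite.
-/

set_option autoImplicit false

namespace Pool.Agent.Helper25.WC.Pr

open scoped InnerProductSpace ComplexConjugate
open Filter Topology
open Pool.Agent.Helper9.UGap
open Pool.Agent.Helper25.WC

noncomputable section

universe u

variable {G : Type u} [Group G] [DecidableEq G]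

theorem main (amen : AMEN.{u}) (φ : FreeGroup (Fin 2) →*
      ↥(unitary (lp (fun _ : G => ℂ) 2 →L[ℂ] lp (fun _ : G => ℂ) 2)))
    (hG : ∀ A : Finset G, ∃ Q : Subgroup G, Finite Q ∧ ∀ a ∈ A, a ∈ Q)
    (hL : ∀ w, InL (U φ w)) (hinj : ∀ w, U φ w = 1 → w = 1) :
    ∃ e, Cl φ Set.univ e ∧ star e = e ∧ e * e = e ∧
      ∀ ε : ℝ, 0 < ε → ∃ S, Cl φ Set.univ S ∧ S ≠ e ∧
        ‖S (dl : lp (fun _ : G => ℂ) 2) - e dl‖ < ε := by
  by_contra hcon
  push Not at hcon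
  have hP : ∀ T, Cl φ Set.univ T → InL T ∧ InL (star T) := by
    intro T hT
    refine ⟨InL_of_Cl hL hT, Pool.Agent.Helper49.DW.Op.InL_star (InL_of_Cl hL hT)⟩
  exact main_false (fun e h1 h2 h3 => hcon e h1 h2 h3) (std_LG (G := G)) hP hinj
    (fun K hK x hx hx0 hc ho => amen G φ hG hL K hK x hx.1 hx0 hc ho)

theorem norm_star' {E : Type*} [NormedAddCommGroup E] [InnerProductSpace ℂ E] [CompleteSpace E]
    {P : (E →L[ℂ] E) → Prop} {δ : E} (hS : Std P δ) {T : E →L[ℂ] E} (hT : P T) :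
    ‖(star T) δ‖ = ‖T δ‖ := by
  have h1 : ⟪(star T) δ, (star T) δ⟫_ℂ = ⟪T δ, T δ⟫_ℂ := by
    rw [inner_star (star T), star_star, hS.trace hT (hS.star hT), inner_star' (star T),
      star_star]
  rw [@norm_eq_sqrt_re_inner ℂ, @norm_eq_sqrt_re_inner ℂ _ _ _ _ (T δ), h1]

/-- the approximating elements can be chosen with a trace different from that of the
projection -/
theorem trace_ne {φ : FreeGroup (Fin 2) →*
      ↥(unitary (lp (fun _ : G => ℂ) 2 →L[ℂ] lp (fun _ : G => ℂ) 2))}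
    (hL : ∀ w, InL (U φ w)) {e : lp (fun _ : G => ℂ) 2 →L[ℂ] lp (fun _ : G => ℂ) 2}
    (he : Cl φ Set.univ e) (hs : star e = e) (hee : e * e = e)
    (h : ∀ ε : ℝ, 0 < ε → ∃ S, Cl φ Set.univ S ∧ S ≠ e ∧
        ‖S (dl : lp (fun _ : G => ℂ) 2) - e dl‖ < ε) (ε : ℝ) (hε : 0 < ε) :
    ∃ S, Cl φ Set.univ S ∧
      ⟪(dl : lp (fun _ : G => ℂ) 2), S dl⟫_ℂ ≠ ⟪(dl : lp (fun _ : G => ℂ) 2), e dl⟫_ℂ ∧
      ‖S (dl : lp (fun _ : G => ℂ) 2) - e dl‖ < ε := by
  set d : lp (fun _ : G => ℂ) 2 := dl with hd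
  obtain ⟨S, hS, hne, hlt⟩ := h (ε / 2) (by positivity)
  have hPC : ∀ {T : lp (fun _ : G => ℂ) 2 →L[ℂ] lp (fun _ : G => ℂ) 2}, Cl φ Set.univ T →
      InL T ∧ InL (star T) := fun hT =>
    ⟨InL_of_Cl hL hT, Pool.Agent.Helper49.DW.Op.InL_star (InL_of_Cl hL hT)⟩
  have hstd := std_LG (G := G)
  have ht : ∀ {T : lp (fun _ : G => ℂ) 2 →L[ℂ] lp (fun _ : G => ℂ) 2}, Cl φ Set.univ T →
      Cl φ ((⊤ : Subgroup (FreeGroup (Fin 2))) : Set (FreeGroup (Fin 2))) T := by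
    intro T hT
    rwa [Subgroup.coe_top]
  have hSe : Cl φ Set.univ (e * S) := ((ht he).mul (ht hS)).mono (Set.subset_univ _)
  have hSS : Cl φ Set.univ (star S * S) :=
    ((ht hS).adj.mul (ht hS)).mono (Set.subset_univ _)
  have e1 : ⟪d, (e * S) d⟫_ℂ = ⟪e d, S d⟫_ℂ := by
    show ⟪d, e (S d)⟫_ℂ = _
    rw [inner_star' e, hs]
  have e2 : ⟪d, (star S * S) d⟫_ℂ = ⟪S d, S d⟫_ℂ := by
    show ⟪d, (star S) (S d)⟫_ℂ = _
    rw [inner_star' (star S), star_star]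
  have e3 : ⟪d, e d⟫_ℂ = ⟪e d, e d⟫_ℂ := by
    have : ⟪d, (e * e) d⟫_ℂ = ⟪e d, e d⟫_ℂ := by
      show ⟪d, e (e d)⟫_ℂ = _
      rw [inner_star' e, hs]
    rwa [hee] at this
  have heed : e (e d) = e d := congrArg (fun T : _ →L[ℂ] _ => T d) hee
  have b1 : ‖(e * S) d - e d‖ < ε := by
    have h1 : (e * S) d - e d = e (S d - e d) := by
      rw [map_sub, heed]; rfl
    rw [h1]
    have := he.norm_le (S d - e d)
    linarith
  have b2 : ‖(star S * S) d - e d‖ < ε := by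
    have h1 : (star S * S) d - e d = (star S) (S d - e d) + ((star S - e) * e) d := by
      show (star S) (S d) - e d = (star S) (S d - e d) + ((star S) (e d) - e (e d))
      rw [heed, map_sub]
      abel
    have h2 := ((ht hS).adj).norm_le (S d - e d)
    have hPS := hPC hS
    have hPe := hPC he
    have hPD : InL (star S - e) ∧ InL (star (star S - e)) := hstd.sub (hstd.star hPS) hPe
    have h3 : ‖((star S - e) * e) d‖ ≤ ‖S d - e d‖ := by
      have h4 := norm_star' hstd (hstd.mul hPD hPe)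
      rw [← h4]
      have h5 : (star ((star S - e) * e)) d = e (S d - e d) := by
        rw [star_mul, star_sub, star_star, hs]
        rfl
      show ‖(star ((star S - e) * e)) d‖ ≤ _
      rw [h5]
      exact he.norm_le _
    rw [h1]
    have h6 := norm_add_le ((star S) (S d - e d)) (((star S - e) * e) d)
    linarith
  by_cases c1 : ⟪d, (e * S) d⟫_ℂ = ⟪d, e d⟫_ℂ
  · by_cases c2 : ⟪d, (star S * S) d⟫_ℂ = ⟪d, e d⟫_ℂ
    · exfalso
      apply hne
      refine sep hstd (hPC hS) (hPC he) ?_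
      rw [← sub_eq_zero]
      apply inner_self_eq_zero (𝕜 := ℂ).1
      show ⟪S d - e d, S d - e d⟫_ℂ = 0
      rw [e1, e3] at c1
      rw [e2, e3] at c2
      have c3 : ⟪S d, e d⟫_ℂ = ⟪e d, e d⟫_ℂ := by
        rw [← inner_conj_symm, c1, inner_conj_symm]
      rw [inner_sub_left, inner_sub_right, inner_sub_right, c1, c2, c3]
      ring
    · exact ⟨_, hSS, c2, b2⟩
  · exact ⟨_, hSe, c1, b1⟩

/-- **Theorem W'.** -/
theorem main' (amen : AMEN.{u}) (φ : FreeGroup (Fin 2) →*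
      ↥(unitary (lp (fun _ : G => ℂ) 2 →L[ℂ] lp (fun _ : G => ℂ) 2)))
    (hG : ∀ A : Finset G, ∃ Q : Subgroup G, Finite Q ∧ ∀ a ∈ A, a ∈ Q)
    (hL : ∀ w, InL (U φ w)) (hinj : ∀ w, U φ w = 1 → w = 1) :
    ∃ e, Cl φ Set.univ e ∧ star e = e ∧ e * e = e ∧
      ∀ ε : ℝ, 0 < ε → ∃ S, Cl φ Set.univ S ∧
        ⟪(dl : lp (fun _ : G => ℂ) 2), S dl⟫_ℂ ≠ ⟪(dl : lp (fun _ : G => ℂ) 2), e dl⟫_ℂ ∧
        ‖S (dl : lp (fun _ : G => ℂ) 2) - e dl‖ < ε := by
  obtain ⟨e, he, hs, hee, h⟩ := main amen φ hG hL hinj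
  exact ⟨e, he, hs, hee, trace_ne hL he hs hee h⟩

end

end Pool.Agent.Helper25.WC.Pr
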